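import Mathlib

/-!
# Compactified Jacobians of nodal curves with rational components

* `NodalCurve k` : connected nodal curves `X` over `k` all of whose components are projective
  lines `ℙ¹` (the nodes lie in the affine parts `𝔸¹ ⊆ ℙ¹` of the components).
* `NodalCurve.IsBiconn`, `NodalCurve.IsVStability` : biconnected subcurves and general
  `V`-stability conditions.
* `NodalCurve.Sheaf` : torsion-free sheaves of rank one on `X`, given as subsheaves of the
  constant sheaf of rational functions; `Sheaf.Iso` : isomorphisms; `Sheaf.deg I Y` : the degree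
  `deg_Y I = χ(I_Y) - χ(𝒪_Y)`, `I_Y` the restriction of `I` to `Y` modulo torsion.
* `Sheaf.IsStable` : the sheaves parametrised by the fine `V`-compactified Jacobian.
* `NodalCurve.JacobianModel` : the properties of the fine `V`-compactified Jacobian (the moduli
  space of stable sheaves) which are used.
* `IsProjective` : projective morphisms `J → Spec k`.
-/

open AlgebraicGeometry CategoryTheory

namespace CompJac

/-- A connected nodal curve over `k` whose components are projective lines: `V` is the set of its
components, `E` the set of its nodes; the node `e` is obtained by glueing the point with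
coordinate `p e` of the component `s e` and the point with coordinate `q e` of the component
`t e`. -/
structure NodalCurve (k : Type) [Field k] where
  V : Type
  E : Type
  [fintypeV : Fintype V]
  [decEqV : DecidableEq V]
  [fintypeE : Fintype E]
  [decEqE : DecidableEq E]
  s : E → V
  t : E → V
  p : E → k
  q : E → k
  /-- the `2 |E|` glued points are distinct -/
  inj : Function.Injective
    (Sum.elim (fun e => (s e, p e)) (fun e => (t e, q e)) : E ⊕ E → V × k)
  /-- connectedness -/
  conn : ∀ Z : Finset V, Z.Nonempty → Z ≠ Finset.univ →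
    ∃ e, (s e ∈ Z ∧ t e ∉ Z) ∨ (s e ∉ Z ∧ t e ∈ Z)

attribute [instance] NodalCurve.fintypeV NodalCurve.decEqV NodalCurve.fintypeE
  NodalCurve.decEqE

namespace NodalCurve

variable {k : Type} [Field k] (X : NodalCurve k)

/-- For subcurves (sets of components) `Y`, `Z` without common components, the number
`|Y ∩ Z|` of nodes in which they meet. -/
def meet (Y Z : Finset X.V) : ℕ :=
  (Finset.univ.filter fun e : X.E => (X.s e ∈ Y ∧ X.t e ∈ Z) ∨ (X.s e ∈ Z ∧ X.t e ∈ Y)).card

/-- The subcurve `Y` is connected (and non-empty). -/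
def IsConn (Y : Finset X.V) : Prop :=
  Y.Nonempty ∧ ∀ Z ⊆ Y, Z.Nonempty → Z ≠ Y → X.meet Z (Y \ Z) ≠ 0

/-- `Y` is a non-trivial biconnected subcurve. -/
def IsBiconn (Y : Finset X.V) : Prop := X.IsConn Y ∧ X.IsConn Yᶜ

/-- General `V`-stability conditions of degree `d`. -/
structure IsVStability (d : ℤ) (n : Finset X.V → ℤ) : Prop where
  compl : ∀ Y, X.IsBiconn Y → n Y + n Yᶜ = d + 1 - X.meet Y Yᶜ
  union : ∀ Y₁ Y₂, X.IsBiconn Y₁ → X.IsBiconn Y₂ → Disjoint Y₁ Y₂ → X.IsBiconn (Y₁ ∪ Y₂) →
    -1 ≤ n (Y₁ ∪ Y₂) - n Y₁ - n Y₂ - X.meet Y₁ Y₂ ∧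
      n (Y₁ ∪ Y₂) - n Y₁ - n Y₂ - X.meet Y₁ Y₂ ≤ 0

/-- The ring of rational functions on `X`, the product of the function fields of the
components. -/
abbrev Fun : Type := X.V → RatFunc k

/-- Families of polynomials `F` (regular functions on the affine parts of the components) with
`α_e F(p_e) = β_e F(q_e)` for all nodes `e`. -/
def gluedSet (α β : X.E → k) : Set X.Fun :=
  {f | ∃ F : X.V → Polynomial k, (∀ v, f v = algebraMap (Polynomial k) (RatFunc k) (F v)) ∧
    ∀ e, α e * (F (X.s e)).eval (X.p e) = β e * (F (X.t e)).eval (X.q e)}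

/-- The coordinate ring of the affine open curve `X ∖ {∞_v}`: families of polynomials with equal
values in the two branches of every node. -/
def affineRing : Set X.Fun := X.gluedSet (fun _ => 1) (fun _ => 1)

/-- A torsion-free sheaf of rank one on `X`, as a subsheaf of the constant sheaf `Fun`. It is
given by the module `M` of its sections on the affine curve `X ∖ {∞_v}`, a finitely generated
module over the ring `affineRing`, and by its stalks `{f ∈ k(x) | deg f ≤ a_v}` at the smooth
points `∞_v`. (Every torsion-free sheaf of rank one is isomorphic to such a subsheaf.) -/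
structure Sheaf where
  /-- sections on `X ∖ {∞_v}` -/
  M : Set X.Fun
  /-- they form a finitely generated module -/
  fg : ∃ (n : ℕ) (g : Fin n → X.Fun),
    M = {f | ∃ c : Fin n → X.Fun, (∀ i, c i ∈ X.affineRing) ∧ f = ∑ i, c i * g i}
  /-- the sheaf has rank one on every component -/
  rank : ∀ v, ∃ f ∈ M, f v ≠ 0
  /-- behaviour at `∞_v` -/
  a : X.V → ℤ

variable {X} in
/-- Isomorphisms between torsion-free sheaves of rank one: multiplications with rational
functions. -/
def Sheaf.Iso (I I' : X.Sheaf) : Prop :=
  ∃ g : X.Fun, (∀ v, g v ≠ 0) ∧ (∀ f, f ∈ I.M ↔ g * f ∈ I'.M) ∧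
    ∀ v, I'.a v = I.a v + (g v).intDegree

/-- `dim A/(A ∩ B)` -/
noncomputable def codim {W : Type} [AddCommGroup W] [Module k W] (A B : Submodule k W) : ℕ :=
  Module.finrank k (A ⧸ B.submoduleOf A)

/-- The image of a set `S` of rational functions on `X` (a vector space, in the cases below) in the
rational functions on the subcurve `Y`. -/
noncomputable def restrict (S : Set X.Fun) (Y : Finset X.V) : Submodule k (Y → RatFunc k) :=
  Submodule.span k ((fun (f : X.Fun) (v : Y) => f v) '' S)

variable {X} in
/-- `deg_Y I = χ(I_Y) - χ(𝒪_Y)` where `I_Y` is the restriction of `I` to the subcurve `Y` modulo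
torsion, i.e. the image of `I` in the rational functions on `Y`. -/
noncomputable def Sheaf.deg (I : X.Sheaf) (Y : Finset X.V) : ℤ :=
  ∑ v ∈ Y, I.a v + codim (X.restrict I.M Y) (X.restrict X.affineRing Y) -
    codim (X.restrict X.affineRing Y) (X.restrict I.M Y)

variable {X} in
/-- `I` is one of the sheaves parametrised by the fine `V`-compactified Jacobian `J_X(n)`:
it has degree `d` and `deg_Y I ≥ n_Y` for all non-trivial biconnected `Y`. -/
def Sheaf.IsStable (d : ℤ) (n : Finset X.V → ℤ) (I : X.Sheaf) : Prop :=
  I.deg Finset.univ = d ∧ ∀ Y, X.IsBiconn Y → n Y ≤ I.deg Y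

/-- A `k`-scheme `J` with (some of) the properties of the fine `V`-compactified Jacobian
`J_X(n)`, the moduli space of stable sheaves on `X`: isomorphism classes of stable sheaves `I` are
(distinct) `k`-rational points `cl I` of `J`, and families of stable sheaves parametrised by
`Spec A` induce morphisms `Spec A → J`. Only the families
`ker(⨁_v 𝒪_{ℙ¹}(D_v) ⊗ A → ⨁_e A)`, `f ↦ α_e f(p_e) - β_e f(q_e)`, with `α_e, β_e ∈ A` which
generate the unit ideal, are considered (`A` a finitely generated `k`-algebra). -/
structure JacobianModel (d : ℤ) (n : Finset X.V → ℤ) {J : Scheme.{0}}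
    (π : J ⟶ Spec (.of k)) where
  /-- the point corresponding to a stable sheaf -/
  cl : ∀ I : X.Sheaf, I.IsStable d n → (Spec (.of k) ⟶ J)
  /-- it is a `k`-rational point -/
  cl_comp : ∀ (I : X.Sheaf) (h : I.IsStable d n), cl I h ≫ π = 𝟙 _
  cl_eq_iff : ∀ (I I' : X.Sheaf) (h : I.IsStable d n) (h' : I'.IsStable d n),
    cl I h = cl I' h' ↔ I.Iso I'
  /-- classifying morphisms of families -/
  family : ∀ (A : Type) [CommRing A] [Algebra k A] [Algebra.FiniteType k A] (D : X.V → ℤ)
    (α β : X.E → A), (∀ e, IsCoprime (α e) (β e)) →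
    ∀ I : (A →ₐ[k] k) → X.Sheaf,
      (∀ x, (I x).M = X.gluedSet (fun e => x (α e)) (fun e => x (β e)) ∧ (I x).a = D) →
      ∀ h : (∀ x, (I x).IsStable d n),
        ∃ F : Spec (.of A) ⟶ J, F ≫ π = Spec.map (CommRingCat.ofHom (algebraMap k A)) ∧
          ∀ x : A →ₐ[k] k, Spec.map (CommRingCat.ofHom (x : A →+* k)) ≫ F = cl (I x) (h x)

end NodalCurve

attribute [local instance] MvPolynomial.gradedAlgebra

/-- The projective space of dimension `N` over `k`. -/
noncomputable abbrev ProjSpace (k : Type) [Field k] (N : ℕ) : Scheme.{0} :=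
  Proj (MvPolynomial.homogeneousSubmodule (Fin (N + 1)) k)

/-- The ring of homogeneous elements of degree zero of the polynomial ring. -/
noncomputable abbrev ProjSpace.degZero (k : Type) [Field k] (N : ℕ) : CommRingCat.{0} :=
  CommRingCat.of (MvPolynomial.homogeneousSubmodule (Fin (N + 1)) k 0)

/-- The inclusion of the constants. -/
noncomputable abbrev ProjSpace.degZeroHom (k : Type) [Field k] (N : ℕ) :
    k →+* ProjSpace.degZero k N :=
  algebraMap k (MvPolynomial.homogeneousSubmodule (Fin (N + 1)) k 0)

/-- The inclusion of the constants. -/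
noncomputable abbrev ProjSpace.degZeroMap (k : Type) [Field k] (N : ℕ) :
    CommRingCat.of k ⟶ ProjSpace.degZero k N :=
  CommRingCat.ofHom (ProjSpace.degZeroHom k N)

/-- The canonical morphism. -/
noncomputable abbrev ProjSpace.toSpecZero (k : Type) [Field k] (N : ℕ) :
    ProjSpace k N ⟶ Spec (ProjSpace.degZero k N) :=
  Proj.toSpecZero (MvPolynomial.homogeneousSubmodule (Fin (N + 1)) k)

/-- The structure morphism of the projective space. -/
noncomputable def ProjSpace.toSpec (k : Type) [Field k] (N : ℕ) :
    ProjSpace k N ⟶ Spec (.of k) :=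
  ProjSpace.toSpecZero k N ≫ Spec.map (ProjSpace.degZeroMap k N)

/-- The `k`-scheme `J` is projective: a closed subscheme of a projective space. -/
def IsProjective {k : Type} [Field k] {J : Scheme.{0}} (π : J ⟶ Spec (.of k)) : Prop :=
  ∃ (N : ℕ) (i : J ⟶ ProjSpace k N), IsClosedImmersion i ∧ i ≫ ProjSpace.toSpec k N = π

end CompJac
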