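import Mathlib
import Pool.Agent.Helper36.CJ.Public

/-!
# Torsion-free sheaves of rank one (internal version)

The definitions of `Pool.Agent.Helper36.CJ.Public` in terms of subalgebras and submodules.
-/

open AlgebraicGeometry CategoryTheory

namespace CompJac

namespace NodalCurve

variable {k : Type} [Field k] (X : NodalCurve k)

/-- The coordinate ring of the affine open curve `X ∖ {∞_v}`: families of polynomials with equal
values in the two branches of every node. -/
def coordRing : Subalgebra k X.Fun where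
  carrier := {f | ∃ F : X.V → Polynomial k, (∀ v, f v = algebraMap _ _ (F v)) ∧
    ∀ e, (F (X.s e)).eval (X.p e) = (F (X.t e)).eval (X.q e)}
  mul_mem' := by
    rintro f g ⟨F, hF, hF'⟩ ⟨G, hG, hG'⟩
    refine ⟨F * G, fun v => ?_, fun e => ?_⟩
    · rw [Pi.mul_apply, hF, hG, Pi.mul_apply, map_mul]
    · rw [Pi.mul_apply, Pi.mul_apply, Polynomial.eval_mul, Polynomial.eval_mul, hF', hG']
  add_mem' := by
    rintro f g ⟨F, hF, hF'⟩ ⟨G, hG, hG'⟩
    refine ⟨F + G, fun v => ?_, fun e => ?_⟩
    · rw [Pi.add_apply, hF, hG, Pi.add_apply, map_add]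
    · rw [Pi.add_apply, Pi.add_apply, Polynomial.eval_add, Polynomial.eval_add, hF', hG']
  algebraMap_mem' := by
    intro c
    refine ⟨fun _ => Polynomial.C c, fun v => ?_, fun e => ?_⟩
    · rw [Pi.algebraMap_apply]
      rfl
    · rw [Polynomial.eval_C, Polynomial.eval_C]

lemma mem_coordRing {f : X.Fun} : f ∈ X.coordRing ↔
    ∃ F : X.V → Polynomial k, (∀ v, f v = algebraMap _ _ (F v)) ∧
      ∀ e, (F (X.s e)).eval (X.p e) = (F (X.t e)).eval (X.q e) := Iff.rfl

/-- The modules over the coordinate ring which consist of rational functions. -/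
abbrev Sub : Type := Submodule X.coordRing X.Fun

/-- `f ∈ M` -/
abbrev Mem (M : X.Sub) (f : X.Fun) : Prop := f ∈ M

/-- `M` is finitely generated. -/
abbrev FinGen (M : X.Sub) : Prop := M.FG

/-- A torsion-free sheaf of rank one on `X`, as a subsheaf of the constant sheaf `Fun`. It is
given by the module `M` of its sections on the affine curve `X ∖ {∞_v}` and by its stalks
`{f ∈ k(x) | deg f ≤ a_v}` at the smooth points `∞_v`. (Every torsion-free sheaf of rank one is
isomorphic to such a subsheaf.) -/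
structure TFSheaf where
  /-- sections on `X ∖ {∞_v}` -/
  M : X.Sub
  fg : X.FinGen M
  /-- the sheaf has rank one on every component -/
  rank : ∀ v, ∃ m, X.Mem M m ∧ m v ≠ 0
  /-- behaviour at `∞_v` -/
  a : X.V → ℤ

variable {X} in
/-- Isomorphisms between torsion-free sheaves of rank one: multiplications with rational
functions. -/
def TFSheaf.Iso (I I' : X.TFSheaf) : Prop :=
  ∃ g : X.Fun, (∀ v, g v ≠ 0) ∧ (∀ m, X.Mem I.M m ↔ X.Mem I'.M (g * m)) ∧
    ∀ v, I'.a v = I.a v + (g v).intDegree

/-- `dim A/(A ∩ B) - dim B/(A ∩ B)` -/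
noncomputable def index {W : Type} [AddCommGroup W] [Module k W] (A B : Submodule k W) : ℤ :=
  (Module.finrank k (A ⧸ B.submoduleOf A) : ℤ) - Module.finrank k (B ⧸ A.submoduleOf B)

variable {X} in
/-- `deg_Y I = χ(I_Y) - χ(𝒪_Y)` where `I_Y` is the restriction of `I` to the subcurve `Y` modulo
torsion, i.e. the image of `I` in the rational functions on `Y`. -/
noncomputable def TFSheaf.deg (I : X.TFSheaf) (Y : Finset X.V) : ℤ :=
  ∑ v ∈ Y, I.a v + index (X.restrict {f | X.Mem I.M f} Y) (X.restrict {f | f ∈ X.coordRing} Y)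

/-- Restriction of rational functions to the subcurve `Y`. -/
noncomputable def restr (Y : Finset X.V) : X.Fun →ₗ[k] (Y → RatFunc k) :=
  LinearMap.funLeft k (RatFunc k) (fun v : Y => (v : X.V))

lemma restrict_coe (N : Submodule k X.Fun) (Y : Finset X.V) :
    X.restrict (N : Set X.Fun) Y = N.map (X.restr Y) := by
  have h : ((fun (f : X.Fun) (v : Y) => f v) '' (N : Set X.Fun)) = (N.map (X.restr Y) : Set _) := rfl
  rw [restrict, h, Submodule.span_eq]

variable {X} in
lemma TFSheaf.deg_eq (I : X.TFSheaf) (Y : Finset X.V) :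
    I.deg Y = ∑ v ∈ Y, I.a v + index ((I.M.restrictScalars k).map (X.restr Y))
      (X.coordRing.toSubmodule.map (X.restr Y)) := by
  rw [← restrict_coe, ← restrict_coe]
  rfl

variable {X} in
/-- `I` is one of the sheaves parametrised by the fine `V`-compactified Jacobian `J_X(n)`:
it has degree `d` and `deg_Y I ≥ n_Y` for all non-trivial biconnected `Y`. -/
def TFSheaf.IsStable (d : ℤ) (n : Finset X.V → ℤ) (I : X.TFSheaf) : Prop :=
  I.deg Finset.univ = d ∧ ∀ Y, X.IsBiconn Y → n Y ≤ I.deg Y

/-- The module of all families of polynomials `F` with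
`α_e F(p_e) = β_e F(q_e)` for all nodes `e`. -/
def gluedModule (α β : X.E → k) : X.Sub where
  carrier := {f | ∃ F : X.V → Polynomial k, (∀ v, f v = algebraMap _ _ (F v)) ∧
    ∀ e, α e * (F (X.s e)).eval (X.p e) = β e * (F (X.t e)).eval (X.q e)}
  add_mem' := by
    rintro f g ⟨F, hF, hF'⟩ ⟨G, hG, hG'⟩
    refine ⟨F + G, fun v => ?_, fun e => ?_⟩
    · rw [Pi.add_apply, hF, hG, Pi.add_apply, map_add]
    · rw [Pi.add_apply, Pi.add_apply, Polynomial.eval_add, Polynomial.eval_add, mul_add, mul_add,
        hF', hG']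
  zero_mem' := by
    refine ⟨0, fun v => ?_, fun e => ?_⟩
    · rw [Pi.zero_apply, Pi.zero_apply, map_zero]
    · rw [Pi.zero_apply, Pi.zero_apply, Polynomial.eval_zero, Polynomial.eval_zero, mul_zero,
        mul_zero]
  smul_mem' := by
    rintro f g ⟨G, hG, hG'⟩
    obtain ⟨F, hF, hF'⟩ := X.mem_coordRing.1 f.2
    refine ⟨F * G, fun v => ?_, fun e => ?_⟩
    · rw [Subalgebra.smul_def, smul_eq_mul, Pi.mul_apply, hF, hG, Pi.mul_apply, map_mul]
    · rw [Pi.mul_apply, Pi.mul_apply, Polynomial.eval_mul, Polynomial.eval_mul, hF']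
      linear_combination ((F (X.t e)).eval (X.q e)) * hG' e

end NodalCurve

end CompJac
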