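import Mathlib
import Pool.Agent.Helper36.CJ.Defs

/-!
# The nodal curve with dual graph `θ(3,3,3)` and its `V`-stability condition

Components: `0`, `1` (three nodes each), `2 + 2 i`, `3 + 2 i` (`i = 0, 1, 2`, two nodes each).
Nodes: `3 i` joins `0` and `2 + 2 i`, `3 i + 1` joins `2 + 2 i` and `3 + 2 i`,
`3 i + 2` joins `3 + 2 i` and `1`.
-/

namespace CompJac

/-- first component of a node -/
def thS : Fin 9 → Fin 8 := ![0, 2, 3, 0, 4, 5, 0, 6, 7]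

/-- second component of a node -/
def thT : Fin 9 → Fin 8 := ![2, 3, 1, 4, 5, 1, 6, 7, 1]

/-- the values of the `V`-stability condition, indexed by the binary codes of the subcurves -/
def nTable : List ℤ :=
  [0, -1, -3, 0, 0, -1, 0, 0, 0, 0, -3, 0, 0, 0, -2, 0, 0, -1, 0, 0, 0, -1, 0, 0, 0, 0, 0, 0, 0,
   0, 0, 0, 0, 0, -3, 0, 0, 0, 0, 0, 0, 0, -2, 0, 0, 0, -2, 0, 0, 0, -2, 0, 0, 0, 0, 0, 0, 0, -2,
   0, 0, 0, -1, -1, 0, -1, 0, 0, 0, -1, 0, 0, 0, 0, 0, 0, 0, 0, 0, 0, 0, 0, 0, 0, 0, 0, 0, 0, 0,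
   0, 0, 0, 0, 0, 0, 0, 0, 0, 0, 0, 0, 0, 0, 0, 0, 0, 0, 0, 0, 0, 0, 0, 0, 0, 0, 0, 0, 0, 0, 0,
   0, 0, 0, 0, 0, 0, 0, -1, 0, 0, -2, 0, 0, 0, 0, 0, 0, 0, -2, 0, 0, 0, -2, 0, 0, 0, 0, 0, 0, 0,
   0, 0, 0, 0, 0, 0, 0, 0, 0, 0, 0, 0, -2, 0, 0, 0, 0, 0, 0, 0, -2, 0, 0, 0, -2, 0, 0, 0, -2, 0,
   0, 0, 0, 0, 0, 0, -1, 0, 0, 0, -1, -1, 0, -1, -2, 0, 0, 0, 0, 0, 0, 0, -2, 0, 0, 0, -2, -1, 0,
   0, 0, 0, 0, 0, 0, 0, 0, 0, 0, 0, 0, 1, 0, -1, 0, 0, -2, 0, 0, 0, 0, 0, 0, 0, -1, 0, 0, 0, -1,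
   -1, 0, 0, -2, -1, 0, 1, 0, -1, 0, 0, -1, -1, 0, 1, -1, 0]

/-- the `V`-stability condition -/
def nTheta (Y : Finset (Fin 8)) : ℤ := nTable.getD (∑ v ∈ Y, 2 ^ (v : ℕ)) 0

set_option maxRecDepth 100000 in
lemma theta_conn : ∀ Z : Finset (Fin 8), Z.Nonempty → Z ≠ Finset.univ →
    ∃ e, (thS e ∈ Z ∧ thT e ∉ Z) ∨ (thS e ∉ Z ∧ thT e ∈ Z) := by decide +kernel

/-- The nodal curve with dual graph `θ(3,3,3)`; the `18` points which are glued have different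
coordinates. -/
def theta {k : Type} [Field k] (c : ℕ ↪ k) : NodalCurve k where
  V := Fin 8
  E := Fin 9
  s := thS
  t := thT
  p := fun e => c e
  q := fun e => c (9 + e)
  inj := by
    rintro (e | e) (e' | e') h
    · simp only [Sum.elim_inl, Prod.mk.injEq] at h
      have := c.injective h.2
      rw [Fin.val_injective this]
    · simp only [Sum.elim_inl, Sum.elim_inr, Prod.mk.injEq] at h
      have := c.injective h.2
      omega
    · simp only [Sum.elim_inl, Sum.elim_inr, Prod.mk.injEq] at h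
      have := c.injective h.2
      omega
    · simp only [Sum.elim_inr, Prod.mk.injEq] at h
      have := c.injective h.2
      have h2 : (e : ℕ) = e' := by omega
      rw [Fin.val_injective h2]
  conn := theta_conn

end CompJac
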