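import Mathlib
import Pool.Agent.Helper36.CJ.Theta

/-!
# Combinatorics of the `V`-stability condition on `θ(3,3,3)`
-/

namespace CompJac

/-- the codes of the biconnected subcurves -/
def codes : List ℕ :=
  [1, 2, 4, 5, 8, 10, 12, 13, 14, 16, 17, 21, 29, 32, 34, 42, 46, 48, 49, 50, 53, 58, 61, 62, 63,
   64, 65, 69, 77, 81, 85, 93, 113, 117, 125, 127, 128, 130, 138, 142, 162, 170, 174, 178, 186,
   190, 191, 192, 193, 194, 197, 202, 205, 206, 207, 209, 213, 221, 223, 226, 234, 238, 239, 241,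
   242, 243, 245, 247, 250, 251, 253, 254]

/-- number of nodes in which two subcurves meet -/
def meetTh (Y Z : Finset (Fin 8)) : ℕ :=
  (Finset.univ.filter fun e : Fin 9 => (thS e ∈ Y ∧ thT e ∈ Z) ∨ (thS e ∈ Z ∧ thT e ∈ Y)).card

/-- a disconnection -/
def splits (Y : Finset (Fin 8)) : Prop :=
  Y = ∅ ∨ ∃ Z ∈ Y.powerset, Z ≠ ∅ ∧ Z ≠ Y ∧ meetTh Z (Y \ Z) = 0

instance : DecidablePred splits := fun Y => by unfold splits; infer_instance

/-- the binary code of a subcurve -/
def bcode (Y : Finset (Fin 8)) : ℕ := ∑ v ∈ Y, 2 ^ (v : ℕ)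

set_option maxRecDepth 1000000 in
lemma not_splits : ∀ Y : Finset (Fin 8), (∑ v ∈ Y, 2 ^ (v : ℕ)) ∈ codes ∨ splits Y ∨ splits Yᶜ := by
  decide +kernel

/-- number of nodes in which two subcurves meet, in terms of codes -/
def meetN (a b : ℕ) : ℤ :=
  (List.ofFn fun e : Fin 9 => if (a.testBit (thS e) && b.testBit (thT e)) ||
    (b.testBit (thS e) && a.testBit (thT e)) then (1 : ℤ) else 0).sum

/-- the stability condition in terms of codes -/
def nN (a : ℕ) : ℤ := nTable.getD a 0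

set_option maxRecDepth 1000000 in
lemma union_check : ∀ a ∈ codes, ∀ b ∈ codes, (∀ v : Fin 8, (a.testBit v && b.testBit v) = false) →
    a + b ∈ codes →
    -1 ≤ nN (a + b) - nN a - nN b - meetN a b ∧ nN (a + b) - nN a - nN b - meetN a b ≤ 0 := by
  decide +kernel

set_option maxRecDepth 1000000 in
lemma compl_check : ∀ a ∈ codes, nN a + nN (255 - a) = 0 + 1 - meetN a (255 - a) := by
  decide +kernel

set_option maxRecDepth 1000000 in
lemma testBit_code : ∀ Y : Finset (Fin 8), ∀ v : Fin 8,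
    (∑ v ∈ Y, 2 ^ (v : ℕ)).testBit v = decide (v ∈ Y) := by
  decide +kernel

lemma testBit_bcode (Y : Finset (Fin 8)) (v : Fin 8) : (bcode Y).testBit v = decide (v ∈ Y) :=
  testBit_code Y v

lemma meetN_bcode (Y Z : Finset (Fin 8)) : meetN (bcode Y) (bcode Z) = meetTh Y Z := by
  unfold meetN meetTh
  rw [List.sum_ofFn, Finset.card_filter]
  push_cast
  apply Finset.sum_congr rfl
  intro e _
  simp only [testBit_bcode, Bool.or_eq_true, Bool.and_eq_true, decide_eq_true_eq]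

lemma nTheta_eq (Y : Finset (Fin 8)) : nTheta Y = nN (bcode Y) := rfl

lemma bcode_union {Y Z : Finset (Fin 8)} (h : Disjoint Y Z) :
    bcode (Y ∪ Z) = bcode Y + bcode Z := Finset.sum_union h

lemma bcode_compl (Y : Finset (Fin 8)) : bcode Yᶜ = 255 - bcode Y := by
  have h : bcode Y + bcode Yᶜ = 255 := by
    unfold bcode
    rw [Finset.sum_add_sum_compl]
    decide
  omega

lemma compl_th {Y : Finset (Fin 8)} (hY : bcode Y ∈ codes) :
    nTheta Y + nTheta Yᶜ = 0 + 1 - meetTh Y Yᶜ := by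
  have h := compl_check _ hY
  rw [← bcode_compl, meetN_bcode] at h
  exact h

lemma union_th {Y₁ Y₂ : Finset (Fin 8)} (h₁ : bcode Y₁ ∈ codes) (h₂ : bcode Y₂ ∈ codes)
    (hd : Disjoint Y₁ Y₂) (h₃ : bcode (Y₁ ∪ Y₂) ∈ codes) :
    -1 ≤ nTheta (Y₁ ∪ Y₂) - nTheta Y₁ - nTheta Y₂ - meetTh Y₁ Y₂ ∧
      nTheta (Y₁ ∪ Y₂) - nTheta Y₁ - nTheta Y₂ - meetTh Y₁ Y₂ ≤ 0 := by
  have h := union_check _ h₁ _ h₂ (by
    intro v
    rw [testBit_bcode, testBit_bcode]
    by_cases hv : v ∈ Y₁
    · have : v ∉ Y₂ := Finset.disjoint_left.1 hd hv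
      simp [this]
    · simp [hv]) (by
    rw [← bcode_union hd]
    exact h₃)
  rw [← bcode_union hd, meetN_bcode] at h
  exact h

section

variable {k : Type} [Field k] (c : ℕ ↪ k)

lemma isConn_theta {Y : Finset (Fin 8)} (h : (theta c).IsConn Y) : ¬ splits Y := by
  rintro (h0 | ⟨Z, hZ, h1, h2, h3⟩)
  · exact h.1.ne_empty h0
  · exact h.2 Z (Finset.mem_powerset.1 hZ) (Finset.nonempty_iff_ne_empty.2 h1) h2 h3

lemma isBiconn_theta {Y : Finset (Fin 8)} (h : (theta c).IsBiconn Y) : bcode Y ∈ codes := by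
  rcases not_splits Y with h1 | h1 | h1
  · exact h1
  · exact absurd h1 (isConn_theta c h.1)
  · exact absurd h1 (isConn_theta c h.2)

/-- `nTheta` is a general `V`-stability condition of degree `0`. -/
theorem theta_isVStability : (theta c).IsVStability 0 nTheta where
  compl Y hY := compl_th (isBiconn_theta c hY)
  union Y₁ Y₂ h₁ h₂ hd h₃ := union_th (isBiconn_theta c h₁) (isBiconn_theta c h₂) hd
    (isBiconn_theta c h₃)

end

end CompJac
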