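import Mathlib
import Pool.Agent.Helper36.CJ.Defs

/-!
# The degrees of the glued sheaves

`deg_of_gluedModule` : the degree of the restriction of the sheaf with module `gluedModule α β` and
pole orders `D` to a subcurve `Y`.
-/

namespace CompJac

namespace NodalCurve

variable {k : Type} [Field k] (X : NodalCurve k)

lemma index_map {P W : Type} [AddCommGroup P] [Module k P] [AddCommGroup W] [Module k W]
    (j : P →ₗ[k] W) (hj : Function.Injective j) (A B : Submodule k P) :
    index (A.map j) (B.map j) = index A B := by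
  have key : ∀ A B : Submodule k P,
      Module.finrank k (A.map j ⧸ (B.map j).submoduleOf (A.map j)) =
      Module.finrank k (A ⧸ B.submoduleOf A) := by
    intro A B
    symm
    apply LinearEquiv.finrank_eq
    apply Submodule.Quotient.equiv _ _ (Submodule.equivMapOfInjective j hj A)
    ext ⟨y, hy⟩
    rw [Submodule.mem_map]
    simp only [Submodule.submoduleOf, Submodule.mem_comap, Submodule.subtype_apply]
    constructor
    · rintro ⟨x, hx, hxy⟩
      have : y = j x := by
        have := congrArg Subtype.val hxy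
        simpa using this.symm
      rw [this]
      exact Submodule.mem_map_of_mem hx
    · intro hy'
      obtain ⟨x, hx, rfl⟩ := Submodule.mem_map.1 hy
      obtain ⟨x', hx', hxx'⟩ := Submodule.mem_map.1 hy'
      have := hj hxx'
      subst this
      exact ⟨⟨x', hx⟩, hx', rfl⟩
  unfold index
  rw [key, key]

lemma finrank_ker_quot {P U W : Type} [AddCommGroup P] [Module k P] [AddCommGroup U] [Module k U]
    [AddCommGroup W] [Module k W] [FiniteDimensional k U] [FiniteDimensional k W]
    (φ : P →ₗ[k] U) (ψ : P →ₗ[k] W) (hφ : Function.Surjective φ) :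
    Module.finrank k (LinearMap.ker φ ⧸ (LinearMap.ker ψ).submoduleOf (LinearMap.ker φ)) +
      Module.finrank k U = Module.finrank k (LinearMap.range (φ.prod ψ)) := by
  set h : LinearMap.ker φ →ₗ[k] LinearMap.range (φ.prod ψ) :=
    (φ.prod ψ).rangeRestrict ∘ₗ (LinearMap.ker φ).subtype with hh
  set g : LinearMap.range (φ.prod ψ) →ₗ[k] U :=
    (LinearMap.fst k U W) ∘ₗ (LinearMap.range (φ.prod ψ)).subtype with hg
  have h1 : (LinearMap.ker ψ).submoduleOf (LinearMap.ker φ) = LinearMap.ker h := by
    ext ⟨x, hx⟩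
    simp only [Submodule.submoduleOf, Submodule.mem_comap, Submodule.subtype_apply,
      LinearMap.mem_ker, hh, LinearMap.comp_apply]
    constructor
    · intro hx'
      ext
      · simpa using hx
      · simpa using hx'
    · intro hx'
      have := congrArg (fun z => z.1.2) hx'
      simpa using this
  have h2 : LinearMap.range h = LinearMap.ker g := by
    ext ⟨y, hy⟩
    simp only [LinearMap.mem_range, LinearMap.mem_ker, hh, hg, LinearMap.comp_apply]
    constructor
    · rintro ⟨⟨x, hx⟩, hxy⟩
      have h5 : y = φ.prod ψ x := (congrArg Subtype.val hxy).symm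
      subst h5
      simpa using hx
    · intro hy'
      obtain ⟨x, rfl⟩ := hy
      have hx : φ x = 0 := by simpa using hy'
      refine ⟨⟨x, hx⟩, ?_⟩
      ext <;> simp
  have h3 : Function.Surjective g := by
    intro u
    obtain ⟨x, rfl⟩ := hφ u
    exact ⟨⟨φ.prod ψ x, ⟨x, rfl⟩⟩, rfl⟩
  have h4 := LinearMap.finrank_range_add_finrank_ker g
  rw [LinearMap.range_eq_top.2 h3, finrank_top] at h4
  rw [h1, (LinearMap.quotKerEquivRange h).finrank_eq, h2, ← h4, add_comm]

lemma index_ker {P U W : Type} [AddCommGroup P] [Module k P] [AddCommGroup U] [Module k U]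
    [AddCommGroup W] [Module k W] [FiniteDimensional k U] [FiniteDimensional k W]
    (φ : P →ₗ[k] U) (ψ : P →ₗ[k] W) (hφ : Function.Surjective φ) (hψ : Function.Surjective ψ) :
    index (LinearMap.ker φ) (LinearMap.ker ψ) =
      (Module.finrank k W : ℤ) - Module.finrank k U := by
  have h1 := finrank_ker_quot φ ψ hφ
  have h2 := finrank_ker_quot ψ φ hψ
  have h3 : Module.finrank k (LinearMap.range (φ.prod ψ)) =
      Module.finrank k (LinearMap.range (ψ.prod φ)) := by
    have : LinearMap.range (ψ.prod φ) = (LinearMap.range (φ.prod ψ)).map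
        (LinearEquiv.prodComm k U W : U × W →ₗ[k] W × U) := by
      ext ⟨a, b⟩
      simp [LinearMap.mem_range, and_comm]
    rw [this, LinearEquiv.finrank_map_eq]
  unfold index
  omega

/-- interpolation -/
lemma exists_interp (c : X.E ⊕ X.E → k) : ∃ F : X.V → Polynomial k,
    (∀ e, (F (X.s e)).eval (X.p e) = c (Sum.inl e)) ∧
    ∀ e, (F (X.t e)).eval (X.q e) = c (Sum.inr e) := by
  set vert : X.E ⊕ X.E → X.V := Sum.elim X.s X.t with hvert
  set pt : X.E ⊕ X.E → k := Sum.elim X.p X.q with hpt
  have hinj : ∀ v, Set.InjOn pt (Finset.univ.filter fun i => vert i = v) := by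
    intro v i hi j hj hij
    simp only [Finset.coe_filter, Finset.mem_univ, true_and, Set.mem_ofPred_eq] at hi hj
    apply X.inj
    rcases i with i | i <;> rcases j with j | j <;>
      simp_all
  refine ⟨fun v => Lagrange.interpolate (Finset.univ.filter fun i => vert i = v) pt c, ?_, ?_⟩
  · intro e
    exact Lagrange.eval_interpolate_at_node (i := Sum.inl e) c (hinj (X.s e)) (by simp [hvert])
  · intro e
    exact Lagrange.eval_interpolate_at_node (i := Sum.inr e) c (hinj (X.t e)) (by simp [hvert])

/-- the nodes which give a condition for the sections on `Y` -/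
def CondNode (α β : X.E → k) (Y : Finset X.V) (e : X.E) : Prop :=
  (X.s e ∈ Y ∧ X.t e ∈ Y) ∨ (X.s e ∈ Y ∧ X.t e ∉ Y ∧ β e = 0) ∨
    (X.t e ∈ Y ∧ X.s e ∉ Y ∧ α e = 0)

/-- extension by zero -/
noncomputable def ext0 (Y : Finset X.V) (f : Y → Polynomial k) (v : X.V) : Polynomial k :=
  if h : v ∈ Y then f ⟨v, h⟩ else 0

lemma ext0_add (Y : Finset X.V) (f g : Y → Polynomial k) (v : X.V) :
    X.ext0 Y (f + g) v = X.ext0 Y f v + X.ext0 Y g v := by
  unfold ext0
  split_ifs <;> simp

lemma ext0_smul (Y : Finset X.V) (c : k) (f : Y → Polynomial k) (v : X.V) :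
    X.ext0 Y (c • f) v = c • X.ext0 Y f v := by
  unfold ext0
  split_ifs <;> simp

lemma ext0_mem (Y : Finset X.V) (f : Y → Polynomial k) {v : X.V} (h : v ∈ Y) :
    X.ext0 Y f v = f ⟨v, h⟩ := by
  simp [ext0, h]

lemma ext0_not_mem (Y : Finset X.V) (f : Y → Polynomial k) {v : X.V} (h : v ∉ Y) :
    X.ext0 Y f v = 0 := by
  simp [ext0, h]

/-- the conditions -/
noncomputable def cond (α β : X.E → k) (Y : Finset X.V) :
    (Y → Polynomial k) →ₗ[k] ({e : X.E // X.CondNode α β Y e} → k) where
  toFun f e := α e * (X.ext0 Y f (X.s e)).eval (X.p e) -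
    β e * (X.ext0 Y f (X.t e)).eval (X.q e)
  map_add' f g := by
    ext e
    simp only [ext0_add, Polynomial.eval_add, Pi.add_apply]
    ring
  map_smul' c f := by
    ext e
    simp only [ext0_smul, Polynomial.eval_smul, Pi.smul_apply, smul_eq_mul, RingHom.id_apply]
    ring

lemma cond_surjective (α β : X.E → k) (h : ∀ e, α e ≠ 0 ∨ β e ≠ 0) (Y : Finset X.V) :
    Function.Surjective (X.cond α β Y) := by
  classical
  intro b
  set b' : X.E → k := fun e => if he : X.CondNode α β Y e then b ⟨e, he⟩ else 0 with hb'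
  obtain ⟨F, hF1, hF2⟩ := X.exists_interp (Sum.elim
    (fun e => if α e ≠ 0 ∧ X.s e ∈ Y then b' e / α e else 0)
    (fun e => if α e ≠ 0 ∧ X.s e ∈ Y then 0 else -(b' e / β e)))
  refine ⟨fun v => F v, ?_⟩
  ext ⟨e, he⟩
  have hb : b ⟨e, he⟩ = b' e := by simp [hb', he]
  rw [hb]
  change α e * (X.ext0 Y (fun v => F v) (X.s e)).eval (X.p e) -
    β e * (X.ext0 Y (fun v => F v) (X.t e)).eval (X.q e) = b' e
  have h1 := hF1 e
  have h2 := hF2 e
  simp only [Sum.elim_inl, Sum.elim_inr] at h1 h2
  by_cases hs : X.s e ∈ Y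
  · by_cases ht : X.t e ∈ Y
    · rw [X.ext0_mem Y _ hs, X.ext0_mem Y _ ht]
      by_cases ha : α e = 0
      · have hb0 : β e ≠ 0 := by
          rcases h e with h | h
          · exact absurd ha h
          · exact h
        simp only [ha, ne_eq, not_true_eq_false, false_and, if_false] at h1 h2
        rw [h1, h2]
        field_simp
        ring
      · simp only [ha, ne_eq, not_false_eq_true, hs, and_self, if_true] at h1 h2
        rw [h1, h2]
        field_simp
        ring
    · rw [X.ext0_mem Y _ hs, X.ext0_not_mem Y _ ht]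
      have hb0 : β e = 0 := by
        rcases he with he | he | he
        · exact absurd he.2 ht
        · exact he.2.2
        · exact absurd he.1 ht
      have ha : α e ≠ 0 := by
        rcases h e with h | h
        · exact h
        · exact absurd hb0 h
      simp only [ha, ne_eq, not_false_eq_true, hs, and_self, if_true] at h1 h2
      rw [h1]
      field_simp
      simp
  · have ht : X.t e ∈ Y := by
      rcases he with he | he | he
      · exact he.2
      · exact absurd he.1 hs
      · exact he.1
    have ha : α e = 0 := by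
      rcases he with he | he | he
      · exact absurd he.1 hs
      · exact absurd he.1 hs
      · exact he.2.2
    have hb0 : β e ≠ 0 := by
      rcases h e with h | h
      · exact absurd ha h
      · exact h
    rw [X.ext0_not_mem Y _ hs, X.ext0_mem Y _ ht]
    simp only [ha, ne_eq, not_true_eq_false, false_and, if_false] at h1 h2
    rw [h2]
    field_simp
    simp

/-- polynomials as rational functions -/
noncomputable def polyMap (Y : Finset X.V) : (Y → Polynomial k) →ₗ[k] (Y → RatFunc k) :=
  ((IsScalarTower.toAlgHom k (Polynomial k) (RatFunc k)).toLinearMap).compLeft Y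

lemma polyMap_apply (Y : Finset X.V) (f : Y → Polynomial k) (v : Y) :
    X.polyMap Y f v = algebraMap _ _ (f v) := rfl

lemma polyMap_injective (Y : Finset X.V) : Function.Injective (X.polyMap Y) := by
  intro f g hfg
  ext1 v
  have := congrFun hfg v
  rw [polyMap_apply, polyMap_apply] at this
  exact RatFunc.algebraMap_injective k this

lemma map_restr (α β : X.E → k) (Y : Finset X.V) :
    ((X.gluedModule α β).restrictScalars k).map (X.restr Y) =
      (LinearMap.ker (X.cond α β Y)).map (X.polyMap Y) := by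
  classical
  ext g
  simp only [Submodule.mem_map, Submodule.restrictScalars_mem, LinearMap.mem_ker]
  constructor
  · rintro ⟨f, ⟨F, hF, hF'⟩, rfl⟩
    refine ⟨fun v => F v, ?_, ?_⟩
    · ext ⟨e, he⟩
      change α e * (X.ext0 Y (fun v => F v) (X.s e)).eval (X.p e) -
        β e * (X.ext0 Y (fun v => F v) (X.t e)).eval (X.q e) = 0
      have hFe := hF' e
      rcases he with he | he | he
      · rw [X.ext0_mem Y _ he.1, X.ext0_mem Y _ he.2, hFe, sub_self]
      · rw [X.ext0_mem Y _ he.1, X.ext0_not_mem Y _ he.2.1, hFe, he.2.2]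
        simp
      · rw [X.ext0_mem Y _ he.1, X.ext0_not_mem Y _ he.2.1, ← hFe, he.2.2]
        simp
    · ext1 v
      rw [polyMap_apply]
      exact (hF v).symm
  · rintro ⟨f, hf, rfl⟩
    have hf' : ∀ e, X.CondNode α β Y e → α e * (X.ext0 Y f (X.s e)).eval (X.p e) =
        β e * (X.ext0 Y f (X.t e)).eval (X.q e) := by
      intro e he
      have := congrFun hf ⟨e, he⟩
      exact sub_eq_zero.1 this
    obtain ⟨G, hG1, hG2⟩ := X.exists_interp (Sum.elim
      (fun e => if X.t e ∈ Y then β e * (X.ext0 Y f (X.t e)).eval (X.q e) / α e else 0)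
      (fun e => if X.s e ∈ Y then α e * (X.ext0 Y f (X.s e)).eval (X.p e) / β e else 0))
    simp only [Sum.elim_inl, Sum.elim_inr] at hG1 hG2
    set F : X.V → Polynomial k := fun v => if v ∈ Y then X.ext0 Y f v else G v with hF
    have hF1 : ∀ v, v ∈ Y → F v = X.ext0 Y f v := fun v hv => by simp [hF, hv]
    have hF2 : ∀ v, v ∉ Y → F v = G v := fun v hv => by simp [hF, hv]
    refine ⟨fun v => algebraMap _ _ (F v), ⟨F, fun v => rfl, ?_⟩, ?_⟩
    · intro e
      by_cases hs : X.s e ∈ Y
      · by_cases ht : X.t e ∈ Y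
        · rw [hF1 _ hs, hF1 _ ht]
          exact hf' e (Or.inl ⟨hs, ht⟩)
        · rw [hF1 _ hs, hF2 _ ht, hG2, if_pos hs]
          by_cases hb : β e = 0
          · have := hf' e (Or.inr (Or.inl ⟨hs, ht, hb⟩))
            rw [this, hb]
            simp
          · field_simp
      · by_cases ht : X.t e ∈ Y
        · rw [hF2 _ hs, hF1 _ ht, hG1, if_pos ht]
          by_cases ha : α e = 0
          · have := hf' e (Or.inr (Or.inr ⟨ht, hs, ha⟩))
            rw [← this, ha]
            simp
          · field_simp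
        · rw [hF2 _ hs, hF2 _ ht, hG1, hG2, if_neg hs, if_neg ht]
          simp
    · ext1 v
      rw [polyMap_apply]
      change algebraMap _ _ (F v) = _
      rw [hF1 _ v.2, X.ext0_mem Y f v.2]

lemma coordRing_toSubmodule :
    X.coordRing.toSubmodule = (X.gluedModule (fun _ => 1) (fun _ => 1)).restrictScalars k := by
  ext f
  simp only [Subalgebra.mem_toSubmodule, Submodule.restrictScalars_mem]
  rw [mem_coordRing]
  change _ ↔ ∃ F : X.V → Polynomial k, (∀ v, f v = algebraMap _ _ (F v)) ∧
    ∀ e, (1 : k) * (F (X.s e)).eval (X.p e) = 1 * (F (X.t e)).eval (X.q e)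
  simp only [one_mul]

open Classical in
lemma finrank_cond (α β : X.E → k) (Y : Finset X.V) :
    Module.finrank k ({e : X.E // X.CondNode α β Y e} → k) =
      (Finset.univ.filter fun e : X.E => X.s e ∈ Y ∧ X.t e ∈ Y).card +
      (Finset.univ.filter fun e : X.E =>
        (X.s e ∈ Y ∧ X.t e ∉ Y ∧ β e = 0) ∨ (X.t e ∈ Y ∧ X.s e ∉ Y ∧ α e = 0)).card := by
  rw [Module.finrank_fintype_fun_eq_card, Fintype.card_subtype, ← Finset.card_union_of_disjoint]
  · congr 1
    ext e
    rw [Finset.mem_union, Finset.mem_filter, Finset.mem_filter, Finset.mem_filter]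
    simp only [Finset.mem_univ, true_and]
    rfl
  · rw [Finset.disjoint_left]
    intro e he he'
    simp only [Finset.mem_filter, Finset.mem_univ, true_and] at he he'
    tauto

open Classical in
theorem deg_of_gluedModule (I : X.TFSheaf) (D : X.V → ℤ) (α β : X.E → k)
    (hM : I.M = X.gluedModule α β) (hD : I.a = D) (h : ∀ e, α e ≠ 0 ∨ β e ≠ 0)
    (Y : Finset X.V) :
    I.deg Y = ∑ v ∈ Y, D v -
      ((Finset.univ.filter fun e : X.E =>
        (X.s e ∈ Y ∧ X.t e ∉ Y ∧ β e = 0) ∨ (X.t e ∈ Y ∧ X.s e ∉ Y ∧ α e = 0)).card : ℤ) := by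
  have h1 : ∀ e : X.E, (1 : k) ≠ 0 ∨ (1 : k) ≠ 0 := fun _ => Or.inl one_ne_zero
  rw [TFSheaf.deg_eq, hM, hD, X.map_restr α β Y, coordRing_toSubmodule,
    X.map_restr (fun _ => 1) (fun _ => 1) Y, index_map _ (X.polyMap_injective Y),
    index_ker _ _ (X.cond_surjective α β h Y) (X.cond_surjective _ _ h1 Y), finrank_cond,
    finrank_cond]
  simp only [one_ne_zero, and_false, or_false, Finset.filter_false, Finset.card_empty, add_zero]
  push_cast
  ring

end NodalCurve

end CompJac
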