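import Mathlib
import Pool.Agent.Helper36.CJ.Defs
import Pool.Agent.Helper99.CJFg

/-!
# The sheaves `glued D α β` and the moduli space

* `NodalCurve.glued D α β` : the sheaf which is the kernel of
  `⨁_v 𝒪_{ℙ¹}(D_v) → ⨁_e k`, `f ↦ α_e f(p_e) - β_e f(q_e)`.
* `NodalCurve.ModuliSpace` : the properties of the moduli space of stable sheaves which are used.
-/

open AlgebraicGeometry CategoryTheory

namespace CompJac

namespace NodalCurve

variable {k : Type} [Field k] (X : NodalCurve k)

/-- The torsion-free sheaf of rank one which is the kernel of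
`⨁_v 𝒪_{ℙ¹}(D_v) → ⨁_e k`, `f ↦ α_e f(p_e) - β_e f(q_e)`, on the curve `X`. -/
noncomputable def glued (D : X.V → ℤ) (α β : X.E → k) : X.TFSheaf where
  M := X.gluedModule α β
  fg := X.gluedModule_fg α β
  rank := X.gluedModule_rank α β
  a := D

/-- A `k`-scheme `J` with (some of) the properties of the fine `V`-compactified Jacobian
`J_X(n)`, the moduli space of stable sheaves on `X`: isomorphism classes of stable sheaves `I` are
(distinct) `k`-rational points `cl I` of `J`, and families of stable sheaves parametrised by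
`Spec A` induce morphisms `Spec A → J`. Only the families
`ker(⨁_v 𝒪_{ℙ¹}(D_v) ⊗ A → ⨁_e A)`, `f ↦ α_e f(p_e) - β_e f(q_e)`, with `α_e, β_e ∈ A` which
generate the unit ideal, are considered (`A` a finitely generated `k`-algebra). -/
structure ModuliSpace (d : ℤ) (n : Finset X.V → ℤ) {J : Scheme.{0}} (π : J ⟶ Spec (.of k)) where
  /-- the point corresponding to a stable sheaf -/
  cl : ∀ I : X.TFSheaf, I.IsStable d n → (Spec (.of k) ⟶ J)
  /-- it is a `k`-rational point -/
  cl_comp : ∀ (I : X.TFSheaf) (h : I.IsStable d n), cl I h ≫ π = 𝟙 _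
  cl_eq_iff : ∀ (I I' : X.TFSheaf) (h : I.IsStable d n) (h' : I'.IsStable d n),
    cl I h = cl I' h' ↔ I.Iso I'
  /-- classifying morphisms of families -/
  family : ∀ (A : Type) [CommRing A] [Algebra k A] [Algebra.FiniteType k A] (D : X.V → ℤ)
    (α β : X.E → A), (∀ e, IsCoprime (α e) (β e)) →
    ∀ h : (∀ x : A →ₐ[k] k, (X.glued D (fun e => x (α e)) (fun e => x (β e))).IsStable d n),
    ∃ F : Spec (.of A) ⟶ J, F ≫ π = Spec.map (CommRingCat.ofHom (algebraMap k A)) ∧
      ∀ x : A →ₐ[k] k, Spec.map (CommRingCat.ofHom (x : A →+* k)) ≫ F = cl _ (h x)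

end NodalCurve

end CompJac
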