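import Mathlib
import Pool.Agent.Helper36.CJ.Glued
import Pool.Agent.Helper36.CJ.Comb
import Pool.Agent.Helper36.CJ.Deg62
import Pool.Agent.Helper39.CJIso
import Pool.Agent.Helper36.CJ.Scheme13
import Pool.Agent.Helper38.CJNewton

/-!
# Charts of the compactified Jacobian
-/

open AlgebraicGeometry CategoryTheory

namespace CompJac

section potentials

variable {k : Type} [Field k]

/-- Potentials on `θ(3,3,3)`: if for every one of the three paths either some edge is removed or the
product of the three factors is `P`, then there is a potential. -/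
lemma exists_potential (c : Fin 9 → k) (hc : ∀ e, c e ≠ 0) (P : k) (hP : P ≠ 0)
    (rem : Fin 9 → Prop)
    (h : ∀ i : Fin 3, (rem ⟨3 * i, by omega⟩ ∨ rem ⟨3 * i + 1, by omega⟩ ∨
      rem ⟨3 * i + 2, by omega⟩) ∨
      c ⟨3 * i, by omega⟩ * c ⟨3 * i + 1, by omega⟩ * c ⟨3 * i + 2, by omega⟩ = P) :
    ∃ lam : Fin 8 → k, (∀ v, lam v ≠ 0) ∧ ∀ e, ¬ rem e → lam (thT e) = c e * lam (thS e) := by
  have key : ∀ i : Fin 3, ∃ u w : k, u ≠ 0 ∧ w ≠ 0 ∧
      (¬ rem ⟨3 * i, by omega⟩ → u = c ⟨3 * i, by omega⟩ * 1) ∧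
      (¬ rem ⟨3 * i + 1, by omega⟩ → w = c ⟨3 * i + 1, by omega⟩ * u) ∧
      (¬ rem ⟨3 * i + 2, by omega⟩ → P = c ⟨3 * i + 2, by omega⟩ * w) := by
    intro i
    have h0 := hc ⟨3 * i, by omega⟩
    have h1 := hc ⟨3 * i + 1, by omega⟩
    have h2 := hc ⟨3 * i + 2, by omega⟩
    rcases h i with (h' | h' | h') | h'
    · refine ⟨P / c ⟨3 * i + 2, by omega⟩ / c ⟨3 * i + 1, by omega⟩, P / c ⟨3 * i + 2, by omega⟩,
        div_ne_zero (div_ne_zero hP h2) h1, div_ne_zero hP h2, fun h => absurd h' h, fun _ => ?_,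
        fun _ => ?_⟩
      · field_simp
      · field_simp
    · refine ⟨c ⟨3 * i, by omega⟩, P / c ⟨3 * i + 2, by omega⟩, h0, div_ne_zero hP h2,
        fun _ => (mul_one _).symm, fun h => absurd h' h, fun _ => ?_⟩
      field_simp
    · refine ⟨c ⟨3 * i, by omega⟩, c ⟨3 * i + 1, by omega⟩ * c ⟨3 * i, by omega⟩, h0,
        mul_ne_zero h1 h0, fun _ => (mul_one _).symm, fun _ => rfl, fun h => absurd h' h⟩
    · refine ⟨c ⟨3 * i, by omega⟩, c ⟨3 * i + 1, by omega⟩ * c ⟨3 * i, by omega⟩, h0,
        mul_ne_zero h1 h0, fun _ => (mul_one _).symm, fun _ => rfl, fun _ => ?_⟩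
      rw [← h']; ring
  choose u w hu hw k0 k1 k2 using key
  refine ⟨![1, P, u 0, w 0, u 1, w 1, u 2, w 2], ?_, ?_⟩
  · intro v
    fin_cases v <;> simp [hP, hu, hw]
  · intro e he
    fin_cases e
    · exact k0 0 he
    · exact k1 0 he
    · exact k2 0 he
    · exact k0 1 he
    · exact k1 1 he
    · exact k2 1 he
    · exact k0 2 he
    · exact k1 2 he
    · exact k2 2 he

end potentials

/-- a ray together with the node which degenerates: the node `3 s + j` on the path `s` -/
structure REdge where
  s : Fin 3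
  b : Bool
  j : Fin 3
deriving DecidableEq

/-- the node -/
def REdge.edge (r : REdge) : Fin 9 := ⟨3 * r.s + r.j, by omega⟩

/-- the ray -/
def REdge.ray (r : REdge) : Ray := (r.s, r.b)

section families

variable {A : Type} [CommRing A]

/-- gluing parameters `α` of the chart spanned by `r`, `r'` -/
def chA (r r' : REdge) (x y : A) : Fin 9 → A := fun e =>
  if e = r.edge then (if r.b then 1 else x) else if e = r'.edge then (if r'.b then 1 else y) else 1

/-- gluing parameters `β` of the chart spanned by `r`, `r'` -/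
def chB (r r' : REdge) (x y : A) : Fin 9 → A := fun e =>
  if e = r.edge then (if r.b then x else 1) else if e = r'.edge then (if r'.b then y else 1) else 1

lemma coprime_ch (r r' : REdge) (x y : A) (e : Fin 9) :
    IsCoprime (chA r r' x y e) (chB r r' x y e) := by
  unfold chA chB
  split_ifs <;> first | exact isCoprime_one_left | exact isCoprime_one_right

lemma chA_map {B : Type} [CommRing B] (f : A →+* B) (r r' : REdge) (x y : A) (e : Fin 9) :
    f (chA r r' x y e) = chA r r' (f x) (f y) e := by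
  unfold chA
  split_ifs <;> simp

lemma chB_map {B : Type} [CommRing B] (f : A →+* B) (r r' : REdge) (x y : A) (e : Fin 9) :
    f (chB r r' x y e) = chB r r' (f x) (f y) e := by
  unfold chB
  split_ifs <;> simp

end families

lemma edge_ne {r r' : REdge} (h : r.s ≠ r'.s) : r.edge ≠ r'.edge := by
  intro he
  apply h
  have := congrArg Fin.val he
  simp only [REdge.edge] at this
  omega

lemma edge_eq_iff (r : REdge) (i j : Fin 3) :
    (⟨3 * i + j, by omega⟩ : Fin 9) = r.edge ↔ i = r.s ∧ j = r.j := by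
  rw [REdge.edge, Fin.mk.injEq, Fin.ext_iff, Fin.ext_iff]
  omega

section

variable {k : Type} [Field k]

lemma ch_ne (r r' : REdge) (x y : k) (e : Fin 9) : chA r r' x y e ≠ 0 ∨ chB r r' x y e ≠ 0 := by
  unfold chA chB
  split_ifs <;> simp

/-- gluing parameters of a general sheaf of given multidegree -/
def torB (h : Fin 3 → k) : Fin 9 → k := fun e =>
  if (e : ℕ) % 3 = 0 then h ⟨e / 3, by omega⟩ else 1

variable (c : ℕ ↪ k)

lemma theta_gauge (D : Fin 8 → ℤ) (α β α' β' : Fin 9 → k) (lam : Fin 8 → k)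
    (hlam : ∀ v, lam v ≠ 0) (h : ∀ e, α e ≠ 0 ∨ β e ≠ 0) (h' : ∀ e, α' e ≠ 0 ∨ β' e ≠ 0)
    (hc : ∀ e, α e * β' e * lam (thT e) = β e * α' e * lam (thS e)) :
    ((theta c).glued D α β).Iso ((theta c).glued D α' β') :=
  NodalCurve.iso_gauge (X := theta c) α β α' β' rfl rfl rfl lam hlam h h' hc

lemma iso_potential (D : Fin 8 → ℤ) (α β α' β' : Fin 9 → k) (q : Fin 9 → k) (hq : ∀ e, q e ≠ 0)
    (P : k) (hP : P ≠ 0) (rem : Fin 9 → Prop)
    (hrem : ∀ i : Fin 3, (rem ⟨3 * i, by omega⟩ ∨ rem ⟨3 * i + 1, by omega⟩ ∨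
      rem ⟨3 * i + 2, by omega⟩) ∨
      q ⟨3 * i, by omega⟩ * q ⟨3 * i + 1, by omega⟩ * q ⟨3 * i + 2, by omega⟩ = P)
    (h : ∀ e, α e ≠ 0 ∨ β e ≠ 0) (h' : ∀ e, α' e ≠ 0 ∨ β' e ≠ 0)
    (h1 : ∀ e, ¬ rem e → α e * β' e * q e = β e * α' e)
    (h2 : ∀ e, rem e → α e * β' e = 0 ∧ β e * α' e = 0) :
    ((theta c).glued D α β).Iso ((theta c).glued D α' β') := by
  obtain ⟨lam, hlam, hl⟩ := exists_potential q hq P hP rem hrem
  refine theta_gauge c D α β α' β' lam hlam h h' ?_
  intro e
  by_cases he : rem e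
  · obtain ⟨e1, e2⟩ := h2 e he
    rw [e1, e2, zero_mul, zero_mul]
  · rw [hl e he, ← h1 e he]
    ring

/-- The chart in torus coordinates. -/
lemma iso_torus (D : Fin 8 → ℤ) (r r' : REdge) (hrr : r.s ≠ r'.s) (x y : k) (hx : x ≠ 0)
    (hy : y ≠ 0) :
    ((theta c).glued D (chA r r' x y) (chB r r' x y)).Iso
      ((theta c).glued D (fun _ => 1) (torB (chartPt r.ray r'.ray x y))) := by
  have hpm : ∀ (b : Bool) (z : k), z ≠ 0 → pm b z ≠ 0 := by
    intro b z hz
    unfold pm
    split_ifs
    · exact hz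
    · exact inv_ne_zero hz
  have hcp : ∀ i, chartPt r.ray r'.ray x y i ≠ 0 := by
    intro i
    unfold chartPt
    split_ifs
    · exact hpm _ _ hx
    · exact hpm _ _ hy
    · exact one_ne_zero
  have htor : ∀ e, torB (chartPt r.ray r'.ray x y) e ≠ 0 := by
    intro e
    unfold torB
    split_ifs
    · exact hcp _
    · exact one_ne_zero
  set ratio : Fin 9 → k := fun e => if e = r.edge then pm r.b x else if e = r'.edge then pm r'.b y
    else 1 with hratio
  have hr0 : ∀ e, ratio e ≠ 0 := by
    intro e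
    simp only [hratio]
    split_ifs
    · exact hpm _ _ hx
    · exact hpm _ _ hy
    · exact one_ne_zero
  refine iso_potential c D _ _ _ _ (fun e => ratio e / torB (chartPt r.ray r'.ray x y) e)
    (fun e => div_ne_zero (hr0 e) (htor e)) 1 one_ne_zero (fun _ => False) ?_ (ch_ne r r' x y)
    (fun e => Or.inl one_ne_zero) ?_ (fun e he => he.elim)
  · intro i
    right
    have e0 : (⟨3 * i, by omega⟩ : Fin 9) = ⟨3 * i + (0 : Fin 3), by omega⟩ := rfl
    have e1 : (⟨3 * i + 1, by omega⟩ : Fin 9) = ⟨3 * i + (1 : Fin 3), by omega⟩ := rfl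
    have e2 : (⟨3 * i + 2, by omega⟩ : Fin 9) = ⟨3 * i + (2 : Fin 3), by omega⟩ := rfl
    have t0 : torB (chartPt r.ray r'.ray x y) ⟨3 * i, by omega⟩ = chartPt r.ray r'.ray x y i := by
      unfold torB
      rw [if_pos (by simp)]
      congr 1
      ext
      simp
    have t1 : torB (chartPt r.ray r'.ray x y) ⟨3 * i + 1, by omega⟩ = 1 := by
      unfold torB
      rw [if_neg (by simp)]
    have t2 : torB (chartPt r.ray r'.ray x y) ⟨3 * i + 2, by omega⟩ = 1 := by
      unfold torB
      rw [if_neg (by simp)]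
    rw [t0, t1, t2]
    simp only [hratio, e0, e1, e2, edge_eq_iff]
    have hval : chartPt r.ray r'.ray x y i = if i = r.s then pm r.b x else
      if i = r'.s then pm r'.b y else 1 := rfl
    have h3 : (if i = r.s ∧ (0 : Fin 3) = r.j then pm r.b x else if i = r'.s ∧ (0 : Fin 3) = r'.j
        then pm r'.b y else 1) * (if i = r.s ∧ (1 : Fin 3) = r.j then pm r.b x else
        if i = r'.s ∧ (1 : Fin 3) = r'.j then pm r'.b y else 1) *
        (if i = r.s ∧ (2 : Fin 3) = r.j then pm r.b x else if i = r'.s ∧ (2 : Fin 3) = r'.j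
        then pm r'.b y else 1) = chartPt r.ray r'.ray x y i := by
      rw [hval]
      by_cases hi : i = r.s
      · have hi' : i ≠ r'.s := fun h => hrr (hi ▸ h)
        simp only [hi, true_and, if_true]
        rw [hi] at hi'
        simp only [hi', false_and, if_false]
        generalize r.j = j
        fin_cases j <;> simp
      · by_cases hi' : i = r'.s
        · simp only [hi', true_and, if_true]
          rw [hi'] at hi
          simp only [hi, false_and, if_false]
          generalize r'.j = j
          fin_cases j <;> simp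
        · simp [hi, hi']
    have hne := hcp i
    rw [div_one, div_one, div_mul_eq_mul_div, div_mul_eq_mul_div, h3, div_self hne]
  · intro e _
    have hne := htor e
    rw [mul_one]
    have : chA r r' x y e * torB (chartPt r.ray r'.ray x y) e *
        (ratio e / torB (chartPt r.ray r'.ray x y) e) = chA r r' x y e * ratio e := by
      field_simp
    rw [this]
    simp only [hratio, chA, chB, pm]
    split_ifs <;> simp [hx, hy]

/-- Scaling of the torus coordinates. -/
lemma iso_scale (D : Fin 8 → ℤ) (h : Fin 3 → k) (l : k) (hl : l ≠ 0) :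
    ((theta c).glued D (fun _ => 1) (torB fun i => l * h i)).Iso
      ((theta c).glued D (fun _ => 1) (torB h)) := by
  refine iso_potential c D _ _ _ _ (fun e => if (e : ℕ) % 3 = 0 then l else 1)
    (fun e => by split_ifs; exacts [hl, one_ne_zero]) l hl (fun _ => False) ?_
    (fun e => Or.inl one_ne_zero) (fun e => Or.inl one_ne_zero) ?_ (fun e he => he.elim)
  · intro i
    right
    simp [Nat.add_mod]
  · intro e _
    unfold torB
    split_ifs <;> simp [mul_comm]

lemma exists_third : ∀ s t : Fin 3, t ≠ s → ∃ i : Fin 3, ∀ i', i' ≠ s → i' ≠ t → i' = i := by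
  decide

/-- The common boundary curve of two charts. -/
lemma iso_wall (D : Fin 8 → ℤ) (s j : Fin 3) (q : REdge) (hq : q.s ≠ s) :
    ∃ κ : k, κ ≠ 0 ∧ ∀ y : k,
      ((theta c).glued D (chA ⟨s, true, j⟩ q 0 y) (chB ⟨s, true, j⟩ q 0 y)).Iso
        ((theta c).glued
          (D - Pi.single (thS (REdge.edge ⟨s, true, j⟩)) 1 +
            Pi.single (thT (REdge.edge ⟨s, true, j⟩)) 1)
          (chA q ⟨s, false, j⟩ (κ * y) 0) (chB q ⟨s, false, j⟩ (κ * y) 0)) := by
  set r : REdge := ⟨s, true, j⟩ with hr
  set r' : REdge := ⟨s, false, j⟩ with hr'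
  have hee : r'.edge = r.edge := rfl
  have hqr : q.edge ≠ r.edge := edge_ne hq
  have hst : thS r.edge ≠ thT r.edge := by
    generalize r.edge = e
    revert e
    decide
  set gs : Fin 9 → k := fun e => (theta c).crossS r.edge e with hgs
  set gt : Fin 9 → k := fun e => (theta c).crossT r.edge e with hgt
  have hgs0 : ∀ e, gs e ≠ 0 := fun e => NodalCurve.crossS_ne (X := theta c) r.edge e
  have hgt0 : ∀ e, gt e ≠ 0 := fun e => NodalCurve.crossT_ne (X := theta c) r.edge e
  -- the third path
  obtain ⟨i₀, hi₀⟩ := exists_third s q.s hq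
  set P : k := (gt ⟨3 * i₀, by omega⟩ / gs ⟨3 * i₀, by omega⟩) *
    (gt ⟨3 * i₀ + 1, by omega⟩ / gs ⟨3 * i₀ + 1, by omega⟩) *
    (gt ⟨3 * i₀ + 2, by omega⟩ / gs ⟨3 * i₀ + 2, by omega⟩) with hP
  have hP0 : P ≠ 0 := by
    rw [hP]
    refine mul_ne_zero (mul_ne_zero ?_ ?_) ?_ <;> exact div_ne_zero (hgt0 _) (hgs0 _)
  have hremo : ∀ (t : REdge) (i : Fin 3), i = t.s → ((⟨3 * i, by omega⟩ : Fin 9) = t.edge ∨
      (⟨3 * i + 1, by omega⟩ : Fin 9) = t.edge ∨ (⟨3 * i + 2, by omega⟩ : Fin 9) = t.edge) := by
    rintro ⟨s', b', j'⟩ i rfl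
    unfold REdge.edge
    fin_cases j'
    · left; rfl
    · right; left; rfl
    · right; right; rfl
  obtain ⟨lam, hlam, hl⟩ := exists_potential (fun e => gt e / gs e)
    (fun e => div_ne_zero (hgt0 e) (hgs0 e)) P hP0 (fun e => e = r.edge ∨ e = q.edge) (by
      intro i
      by_cases h1 : i = s
      · left
        rcases hremo r i h1 with h | h | h
        · exact Or.inl (Or.inl h)
        · exact Or.inr (Or.inl (Or.inl h))
        · exact Or.inr (Or.inr (Or.inl h))
      · by_cases h2 : i = q.s
        · left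
          rcases hremo q i h2 with h | h | h
          · exact Or.inl (Or.inr h)
          · exact Or.inr (Or.inl (Or.inr h))
          · exact Or.inr (Or.inr (Or.inr h))
        · right
          rw [hi₀ i h1 h2])
  -- the constant
  refine ⟨if q.b then gt q.edge * lam (thS q.edge) / (gs q.edge * lam (thT q.edge)) else
    gs q.edge * lam (thT q.edge) / (gt q.edge * lam (thS q.edge)), ?_, ?_⟩
  · split_ifs
    · exact div_ne_zero (mul_ne_zero (hgt0 _) (hlam _)) (mul_ne_zero (hgs0 _) (hlam _))
    · exact div_ne_zero (mul_ne_zero (hgs0 _) (hlam _)) (mul_ne_zero (hgt0 _) (hlam _))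
  · intro y
    have hA0 : chA r q 0 y r.edge = 1 := by simp [chA, hr]
    have hB0 : chB r q 0 y r.edge = 0 := by simp [chB, hr]
    have h1 : ((theta c).glued D (chA r q 0 y) (chB r q 0 y)).Iso
        ((theta c).glued (D - Pi.single (thS r.edge) 1 + Pi.single (thT r.edge) 1)
          (fun e : Fin 9 => if e = r.edge then 0 else chA r q 0 y e * gs e)
          (fun e : Fin 9 => if e = r.edge then 1 else chB r q 0 y e * gt e)) :=
      NodalCurve.iso_cross (X := theta c) D (chA r q 0 y) (chB r q 0 y) r.edge hst hB0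
        (by rw [hA0]; exact one_ne_zero) rfl rfl rfl rfl
    refine NodalCurve.Iso.trans h1 (theta_gauge c _ _ _ _ _ lam hlam ?_ (ch_ne q r' _ _) ?_)
    · intro e
      by_cases he : e = r.edge
      · right; rw [if_pos he]; exact one_ne_zero
      · rcases ch_ne r q 0 y e with h | h
        · left; rw [if_neg he]; exact mul_ne_zero h (hgs0 e)
        · right; rw [if_neg he]; exact mul_ne_zero h (hgt0 e)
    · intro e
      by_cases he : e = r.edge
      · subst he
        have hb : r'.b = false := rfl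
        have k2 : ∀ z : k, chA q r' z 0 r.edge = 0 := by
          intro z
          simp only [chA, if_neg hqr.symm, if_pos hee.symm, hb, Bool.false_eq_true, if_false]
        rw [if_pos rfl, if_pos rfl, k2, zero_mul, zero_mul, mul_zero, zero_mul]
      · rw [if_neg he, if_neg he]
        by_cases he' : e = q.edge
        · subst he'
          have g1 := hgs0 q.edge
          have g2 := hgt0 q.edge
          have g3 := hlam (thS q.edge)
          have g4 := hlam (thT q.edge)
          simp only [chA, chB, he, if_false, if_true]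
          cases q.b
          · simp only [Bool.false_eq_true, if_false]
            field_simp
          · simp only [if_true]
            field_simp
        · have := hl e (by rintro (h | h); exacts [he h, he' h])
          have g1 := hgs0 e
          simp only [chA, chB, he, he', hee, if_false]
          rw [this]
          field_simp

end

end CompJac
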