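import Mathlib
import Pool.Agent.Helper36.CJ.Charts

/-!
# Stability on the charts
-/

open AlgebraicGeometry CategoryTheory

namespace CompJac

/-- Does the gluing parameter `α` vanish at `e`? (`bx`, `by'` : do `x`, `y` vanish?) -/
def zA (r r' : REdge) (bx by' : Bool) (e : Fin 9) : Bool :=
  if e = r.edge then (!r.b && bx) else if e = r'.edge then (!r'.b && by') else false

/-- Does the gluing parameter `β` vanish at `e`? -/
def zB (r r' : REdge) (bx by' : Bool) (e : Fin 9) : Bool :=
  if e = r.edge then (r.b && bx) else if e = r'.edge then (r'.b && by') else false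

/-- The degree on the subcurve with code `a`. -/
def degN (D : Fin 8 → ℤ) (r r' : REdge) (bx by' : Bool) (a : ℕ) : ℤ :=
  (List.ofFn fun v : Fin 8 => if a.testBit v then D v else 0).sum -
    (List.ofFn fun e : Fin 9 => if (a.testBit (thS e) && !a.testBit (thT e) && zB r r' bx by' e) ||
      (a.testBit (thT e) && !a.testBit (thS e) && zA r r' bx by' e) then (1 : ℤ) else 0).sum

/-- All the sheaves in the chart spanned by `r`, `r'` are stable. -/
def StableCorner (D : Fin 8 → ℤ) (r r' : REdge) : Prop :=
  (List.ofFn D).sum = 0 ∧ ∀ bx by' : Bool, ∀ a ∈ codes, nN a ≤ degN D r r' bx by' a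

instance (D : Fin 8 → ℤ) (r r' : REdge) : Decidable (StableCorner D r r') := by
  unfold StableCorner; infer_instance

section

variable {k : Type} [Field k] (c : ℕ ↪ k)

open Classical in
lemma zA_iff (r r' : REdge) (x y : k) (e : Fin 9) :
    chA r r' x y e = 0 ↔ zA r r' (decide (x = 0)) (decide (y = 0)) e = true := by
  unfold chA zA
  split_ifs with h1 h2 h3 h4 <;> simp [*]

open Classical in
lemma zB_iff (r r' : REdge) (x y : k) (e : Fin 9) :
    chB r r' x y e = 0 ↔ zB r r' (decide (x = 0)) (decide (y = 0)) e = true := by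
  unfold chB zB
  split_ifs with h1 h2 h3 h4 <;> simp [*]

open Classical in
lemma deg_term (r r' : REdge) (x y : k) (Y : Finset (Fin 8)) (e : Fin 9) :
    (((thS e ∈ Y ∧ thT e ∉ Y ∧ chB r r' x y e = 0) ∨
      (thT e ∈ Y ∧ thS e ∉ Y ∧ chA r r' x y e = 0)) ↔
    (((bcode Y).testBit (thS e) && !(bcode Y).testBit (thT e) &&
        zB r r' (decide (x = 0)) (decide (y = 0)) e) ||
      ((bcode Y).testBit (thT e) && !(bcode Y).testBit (thS e) &&
        zA r r' (decide (x = 0)) (decide (y = 0)) e)) = true) := by
  rw [zA_iff, zB_iff, testBit_bcode, testBit_bcode]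
  simp only [Bool.or_eq_true, Bool.and_eq_true, decide_eq_true_eq,
      Bool.not_eq_true', decide_eq_false_iff_not, and_assoc]

open Classical in
lemma deg_chart (D : Fin 8 → ℤ) (r r' : REdge) (x y : k) (Y : Finset (Fin 8)) :
    ((theta c).glued D (chA r r' x y) (chB r r' x y)).deg Y =
      degN D r r' (decide (x = 0)) (decide (y = 0)) (bcode Y) := by
  have h := NodalCurve.deg_of_gluedModule (X := theta c)
    ((theta c).glued D (chA r r' x y) (chB r r' x y)) D (chA r r' x y) (chB r r' x y) rfl rfl
    (ch_ne r r' x y) Y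
  rw [h]
  unfold degN
  congr 1
  · rw [List.sum_ofFn, ← Finset.sum_filter]
    apply Finset.sum_congr _ (fun _ _ => rfl)
    ext v
    simp only [Finset.mem_filter, Finset.mem_univ, true_and]
    rw [testBit_bcode]
    simp
  · rw [List.sum_ofFn, Finset.card_filter]
    push_cast
    apply Finset.sum_congr rfl
    intro e _
    exact if_congr (deg_term r r' x y Y e) rfl rfl

lemma stable_chart {D : Fin 8 → ℤ} {r r' : REdge} (h : StableCorner D r r') (x y : k) :
    ((theta c).glued D (chA r r' x y) (chB r r' x y)).IsStable 0 nTheta := by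
  classical
  refine ⟨?_, ?_⟩
  · have h1 := NodalCurve.deg_of_gluedModule (X := theta c)
      ((theta c).glued D (chA r r' x y) (chB r r' x y)) D (chA r r' x y) (chB r r' x y) rfl rfl
      (ch_ne r r' x y) Finset.univ
    rw [h1]
    have h2 : ∑ v : Fin 8, D v = 0 := by
      have := h.1
      rwa [List.sum_ofFn] at this
    have h3 : ∑ v ∈ (Finset.univ : Finset (theta c).V), D v = 0 := h2
    rw [h3]
    simp
  · intro Y hY
    have h2 := deg_chart c D r r' x y Y
    exact le_of_le_of_eq (h.2 _ _ _ (isBiconn_theta c hY)) h2.symm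

end

end CompJac
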