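import Mathlib
import Pool.Agent.Helper36.CJ.Glued

/-!
# The public definitions and the internal ones
-/

open AlgebraicGeometry CategoryTheory

namespace CompJac

namespace NodalCurve

variable {k : Type} [Field k] (X : NodalCurve k)

lemma mem_affineRing {f : X.Fun} : f ∈ X.affineRing ↔ f ∈ X.coordRing := by
  unfold affineRing gluedSet
  rw [mem_coordRing]
  simp only [one_mul]
  rfl

lemma gluedSet_eq (α β : X.E → k) : X.gluedSet α β = (X.gluedModule α β : Set X.Fun) := rfl

variable {X}

/-- the sheaf in the sense of the public definitions -/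
def TFSheaf.toSheaf (I : X.TFSheaf) : X.Sheaf where
  M := (I.M : Set X.Fun)
  fg := by
    obtain ⟨n, g, hg⟩ := Submodule.fg_iff_exists_fin_generating_family.1 I.fg
    refine ⟨n, g, ?_⟩
    ext f
    rw [SetLike.mem_coe, ← hg, Submodule.mem_span_range_iff_exists_fun]
    constructor
    · rintro ⟨c, hc⟩
      exact ⟨fun i => c i, fun i => (X.mem_affineRing).2 (c i).2, hc.symm⟩
    · rintro ⟨c, hc, hf⟩
      exact ⟨fun i => ⟨c i, (X.mem_affineRing).1 (hc i)⟩, hf.symm⟩
  rank := I.rank
  a := I.a

lemma TFSheaf.deg_toSheaf (I : X.TFSheaf) (Y : Finset X.V) : I.toSheaf.deg Y = I.deg Y := by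
  have h1 : X.affineRing = {f | f ∈ X.coordRing} := by
    ext f
    exact X.mem_affineRing
  unfold Sheaf.deg TFSheaf.deg index codim
  rw [h1, add_sub_assoc]
  rfl

lemma TFSheaf.isStable_toSheaf (I : X.TFSheaf) (d : ℤ) (n : Finset X.V → ℤ) :
    I.toSheaf.IsStable d n ↔ I.IsStable d n := by
  unfold Sheaf.IsStable TFSheaf.IsStable
  simp only [TFSheaf.deg_toSheaf]

/-- the internal version of the moduli space -/
noncomputable def JacobianModel.toModuliSpace {d : ℤ} {n : Finset X.V → ℤ} {J : Scheme.{0}}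
    {π : J ⟶ Spec (.of k)} (M : X.JacobianModel d n π) : X.ModuliSpace d n π where
  cl I h := M.cl I.toSheaf ((I.isStable_toSheaf d n).2 h)
  cl_comp I h := M.cl_comp _ _
  cl_eq_iff I I' h h' := M.cl_eq_iff _ _ _ _
  family A _ _ _ D α β hco h :=
    M.family A D α β hco (fun x => (X.glued D (fun e => x (α e)) (fun e => x (β e))).toSheaf)
      (fun _ => ⟨rfl, rfl⟩) (fun x => ((X.glued D _ _).isStable_toSheaf d n).2 (h x))

end NodalCurve

end CompJac
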