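import Mathlib
import Pool.Agent.Helper36.CJ.Assembly

/-!
# Projective moduli spaces in coordinates
-/

open AlgebraicGeometry CategoryTheory

namespace CompJac

variable {k : Type} [Field k]

/-- What is used about a projective moduli space: coordinates of the points and polynomial
coordinates for the charts. -/
structure PolyModuli (c : ℕ ↪ k) where
  N : ℕ
  Ψ : (theta c).TFSheaf → Projectivization k (Fin (N + 1) → k)
  Ψ_iso : ∀ I I' : (theta c).TFSheaf, I.IsStable 0 nTheta → I'.IsStable 0 nTheta →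
    (Ψ I = Ψ I' ↔ I.Iso I')
  chart : ∀ (D : Fin 8 → ℤ) (r r' : REdge), StableCorner D r r' →
    ∃ P : Fin (N + 1) → MvPolynomial (Fin 2) k, ∀ a : Fin 2 → k,
      ∃ hne : (fun j => MvPolynomial.eval a (P j)) ≠ 0,
        Ψ ((theta c).glued D (chA r r' (a 0) (a 1)) (chB r r' (a 0) (a 1))) =
          Projectivization.mk k (fun j => MvPolynomial.eval a (P j)) hne

theorem exists_polyModuli [IsAlgClosed k] (c : ℕ ↪ k) {J : Scheme.{0}} (π : J ⟶ Spec (.of k))
    (M : (theta c).ModuliSpace 0 nTheta π) (hπ : IsProjective π) : Nonempty (PolyModuli c) := by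
  classical
  obtain ⟨N, Φ, hΦ, hF⟩ := exists_coordinates π hπ
  have hne1 : (fun _ : Fin (N + 1) => (1 : k)) ≠ 0 := fun h => one_ne_zero (congrFun h 0)
  refine ⟨⟨N, fun I => if h : I.IsStable 0 nTheta then Φ (M.cl I h) else
    Projectivization.mk k (fun _ => 1) hne1, ?_, ?_⟩⟩
  · intro I I' h h'
    rw [dif_pos h, dif_pos h', ← M.cl_eq_iff I I' h h']
    exact ⟨fun he => hΦ _ _ (M.cl_comp I h) (M.cl_comp I' h') he, fun he => by rw [he]⟩
  · intro D r r' hst
    set A := MvPolynomial (Fin 2) k
    have hmap : ∀ (x : A →ₐ[k] k),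
        ((theta c).glued D (fun e => x (chA r r' (MvPolynomial.X 0 : A) (MvPolynomial.X 1) e))
          (fun e => x (chB r r' (MvPolynomial.X 0 : A) (MvPolynomial.X 1) e))) =
        (theta c).glued D (chA r r' (x (MvPolynomial.X 0)) (x (MvPolynomial.X 1)))
          (chB r r' (x (MvPolynomial.X 0)) (x (MvPolynomial.X 1))) := by
      intro x
      congr 1
      · funext e
        exact chA_map (x : A →+* k) r r' _ _ e
      · funext e
        exact chB_map (x : A →+* k) r r' _ _ e
    obtain ⟨F, hF1, hF2⟩ := M.family A D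
      (chA r r' (MvPolynomial.X 0) (MvPolynomial.X 1))
      (chB r r' (MvPolynomial.X 0) (MvPolynomial.X 1)) (fun e => coprime_ch r r' _ _ e)
      (fun x => by
        rw [hmap x]
        exact stable_chart c hst _ _)
    obtain ⟨P, hP⟩ := hF F hF1
    refine ⟨P, fun a => ?_⟩
    obtain ⟨hne, hPa⟩ := hP a
    refine ⟨hne, ?_⟩
    rw [← hPa, dif_pos (stable_chart c hst _ _)]
    have h2 := hF2 (MvPolynomial.aeval a)
    have h3 : ((MvPolynomial.aeval a : A →ₐ[k] k) : A →+* k) = MvPolynomial.eval a := by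
      ext <;> simp
    rw [h3] at h2
    rw [h2]
    have key : ∀ (I I' : (theta c).TFSheaf) (h : I.IsStable 0 nTheta) (h' : I'.IsStable 0 nTheta),
        I = I' → M.cl I h = M.cl I' h' := by
      rintro I I' h h' rfl
      rfl
    have h4 : (theta c).glued D (fun e => (MvPolynomial.aeval a : A →ₐ[k] k)
          (chA r r' (MvPolynomial.X 0 : A) (MvPolynomial.X 1) e))
        (fun e => (MvPolynomial.aeval a : A →ₐ[k] k)
          (chB r r' (MvPolynomial.X 0 : A) (MvPolynomial.X 1) e)) =
        (theta c).glued D (chA r r' (a 0) (a 1)) (chB r r' (a 0) (a 1)) := by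
      rw [hmap (MvPolynomial.aeval a), MvPolynomial.aeval_X, MvPolynomial.aeval_X]
    exact congrArg Φ (key _ _ _ _ h4.symm)

end CompJac
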