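import Mathlib
import Pool.Agent.Helper36.CJ.Moduli

/-!
# Degrees of the boundary curves
-/

open AlgebraicGeometry CategoryTheory

namespace CompJac

variable {k : Type} [Field k] {c : ℕ ↪ k}

lemma stable_torus {D : Fin 8 → ℤ} {r r' : REdge} (hs : StableCorner D r r') (h : Fin 3 → k)
    (hh : ∀ i, h i ≠ 0) :
    ((theta c).glued D (fun _ => 1) (torB h)).IsStable 0 nTheta := by
  classical
  have hB : ∀ e, torB h e ≠ 0 := by
    intro e
    unfold torB
    split_ifs
    · exact hh _
    · exact one_ne_zero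
  have key : ∀ Y : Finset (theta c).V, ((theta c).glued D (fun _ => 1) (torB h)).deg Y =
      ((theta c).glued D (chA r r' 1 1) (chB r r' 1 1)).deg Y := by
    intro Y
    have h1 := NodalCurve.deg_of_gluedModule (X := theta c)
      ((theta c).glued D (fun _ => 1) (torB h)) D (fun _ => 1) (torB h) rfl rfl
      (fun e => Or.inl one_ne_zero) Y
    have h2 := NodalCurve.deg_of_gluedModule (X := theta c)
      ((theta c).glued D (chA r r' 1 1) (chB r r' 1 1)) D (chA r r' 1 1) (chB r r' 1 1) rfl rfl
      (ch_ne r r' 1 1) Y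
    rw [h1, h2]
    have hA1 : ∀ e, chA r r' (1 : k) 1 e ≠ 0 := by
      intro e
      unfold chA
      split_ifs <;> exact one_ne_zero
    have hB1 : ∀ e, chB r r' (1 : k) 1 e ≠ 0 := by
      intro e
      unfold chB
      split_ifs <;> exact one_ne_zero
    congr 2
    rw [Finset.filter_false_of_mem, Finset.filter_false_of_mem]
    · rintro e - (⟨-, -, h0⟩ | ⟨-, -, h0⟩)
      · exact hB1 e h0
      · exact hA1 e h0
    · rintro e - (⟨-, -, h0⟩ | ⟨-, -, h0⟩)
      · exact hB e h0
      · exact one_ne_zero h0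
  have hst := stable_chart c hs 1 1
  refine ⟨?_, ?_⟩
  · rw [key]
    exact hst.1
  · intro Y hY
    rw [key]
    exact hst.2 Y hY

namespace PolyModuli

/-- coordinates of a chart -/
noncomputable def P (M : PolyModuli c) (D : Fin 8 → ℤ) (r r' : REdge) (h : StableCorner D r r') :
    Fin (M.N + 1) → MvPolynomial (Fin 2) k :=
  (M.chart D r r' h).choose

lemma P_spec (M : PolyModuli c) {D : Fin 8 → ℤ} {r r' : REdge} (h : StableCorner D r r')
    (a : Fin 2 → k) :
    ∃ hne : (fun j => MvPolynomial.eval a (M.P D r r' h j)) ≠ 0,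
      M.Ψ ((theta c).glued D (chA r r' (a 0) (a 1)) (chB r r' (a 0) (a 1))) =
        Projectivization.mk k (fun j => MvPolynomial.eval a (M.P D r r' h j)) hne :=
  (M.chart D r r' h).choose_spec a

/-- degree of the boundary curve `x = 0` -/
noncomputable def bx (M : PolyModuli c) (D : Fin 8 → ℤ) (r r' : REdge)
    (h : StableCorner D r r') : ℕ := vdeg fun j => onX0 (M.P D r r' h j)

/-- degree of the boundary curve `y = 0` -/
noncomputable def by' (M : PolyModuli c) (D : Fin 8 → ℤ) (r r' : REdge)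
    (h : StableCorner D r r') : ℕ := vdeg fun j => onY0 (M.P D r r' h j)

/-- Balancing of the boundary curves of one multidegree. -/
theorem region [IsAlgClosed k] (M : PolyModuli c) {m : ℕ} [NeZero m] (D : Fin 8 → ℤ)
    (r : ZMod m → REdge) (hr : ∀ i, Follows (r i).ray (r (i + 1)).ray)
    (hs : ∀ i, StableCorner D (r i) (r (i + 1))) :
    ∃ w : Ray → ℤ,
      (∀ i, (M.bx D (r i) (r (i + 1)) (hs i) : ℤ) =
        w (r i).ray - w ((r i).s + 1, !(r i).b) - w ((r i).s + 2, !(r i).b)) ∧
      (∀ i, (M.by' D (r i) (r (i + 1)) (hs i) : ℤ) =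
        w (r (i + 1)).ray - w ((r (i + 1)).s + 1, !(r (i + 1)).b) -
          w ((r (i + 1)).s + 2, !(r (i + 1)).b)) ∧
      (∀ (s : Fin 3) (b : Bool), (∀ i, (r i).ray ≠ (s, b)) →
        0 = w (s, b) - w (s + 1, !b) - w (s + 2, !b)) := by
  have hne : ∀ i, (r i).s ≠ (r (i + 1)).s := by
    intro i
    have := hr i
    generalize r i = a at this
    generalize r (i + 1) = b at this
    obtain ⟨s, x, _⟩ := a
    obtain ⟨t, y, _⟩ := b
    have d2 : ∀ s : Fin 3, s ≠ s + 2 := by decide
    have d1 : ∀ s : Fin 3, s ≠ s + 1 := by decide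
    rcases this with h | h
    · simp only [REdge.ray, Prod.mk.injEq] at h
      rw [h.1]
      exact d2 s
    · simp only [REdge.ray, Prod.mk.injEq] at h
      rw [h.1]
      exact d1 s
  refine balancing (fun i => (r i).ray) hr (fun i => M.P D (r i) (r (i + 1)) (hs i))
    (fun i a => (M.P_spec (hs i) a).choose)
    (fun h => M.Ψ ((theta c).glued D (fun _ => 1) (torB h))) ?_ ?_
  · intro h l hh hl
    have hst : ∀ h : Fin 3 → k, (∀ i, h i ≠ 0) →
      ((theta c).glued D (fun _ => 1) (torB h)).IsStable 0 nTheta := fun h hh =>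
      stable_torus (hs 0) h hh
    exact (M.Ψ_iso _ _ (hst _ fun i => mul_ne_zero hl (hh i)) (hst _ hh)).2 (iso_scale c D h l hl)
  · intro i x y hx hy
    have h1 := (M.P_spec (hs i) ![x, y]).choose_spec
    have hcp : ∀ j, chartPt (r i).ray (r (i + 1)).ray x y j ≠ 0 := by
      intro j
      unfold chartPt pm
      split_ifs <;> first | exact hx | exact hy | exact inv_ne_zero hx | exact inv_ne_zero hy |
        exact one_ne_zero
    exact h1.symm.trans ((M.Ψ_iso _ _ (stable_chart c (hs i) _ _)
      (stable_torus (hs i) _ hcp)).2 (iso_torus c D (r i) (r (i + 1)) (hne i) x y hx hy))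

lemma eval_onX0 (F : MvPolynomial (Fin 2) k) (y : k) :
    (onX0 F).eval y = MvPolynomial.eval ![0, y] F := by
  unfold onX0
  have : (Polynomial.evalRingHom y).comp
      (MvPolynomial.aeval ![0, Polynomial.X] : MvPolynomial (Fin 2) k →ₐ[k] Polynomial k).toRingHom
      = MvPolynomial.eval ![0, y] := by
    apply MvPolynomial.ringHom_ext
    · intro a; simp
    · intro i
      fin_cases i <;> simp
  exact DFunLike.congr_fun this F

lemma eval_onY0 (F : MvPolynomial (Fin 2) k) (x : k) :
    (onY0 F).eval x = MvPolynomial.eval ![x, 0] F := by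
  unfold onY0
  have : (Polynomial.evalRingHom x).comp
      (MvPolynomial.aeval ![Polynomial.X, 0] : MvPolynomial (Fin 2) k →ₐ[k] Polynomial k).toRingHom
      = MvPolynomial.eval ![x, 0] := by
    apply MvPolynomial.ringHom_ext
    · intro a; simp
    · intro i
      fin_cases i <;> simp
  exact DFunLike.congr_fun this F

/-- Two charts of neighbouring multidegrees share a boundary curve. -/
theorem wall [IsAlgClosed k] (M : PolyModuli c) (D D' : Fin 8 → ℤ) (s j : Fin 3) (q : REdge)
    (hq : q.s ≠ s)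
    (hD : D' = D - Pi.single (thS (REdge.edge ⟨s, true, j⟩)) 1 +
      Pi.single (thT (REdge.edge ⟨s, true, j⟩)) 1)
    (h : StableCorner D ⟨s, true, j⟩ q) (h' : StableCorner D' q ⟨s, false, j⟩) :
    M.bx D ⟨s, true, j⟩ q h = M.by' D' q ⟨s, false, j⟩ h' := by
  subst hD
  obtain ⟨κ, hκ, hiso⟩ := iso_wall c D s j q hq
  have e1 : ∀ y, (fun l => (onX0 (M.P D ⟨s, true, j⟩ q h l)).eval y) =
      fun l => MvPolynomial.eval ![0, y] (M.P D ⟨s, true, j⟩ q h l) := by
    intro y
    funext l
    exact eval_onX0 _ _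
  have e2 : ∀ y, (fun l => (onY0 (M.P _ q ⟨s, false, j⟩ h' l)).eval y) =
      fun l => MvPolynomial.eval ![y, 0] (M.P _ q ⟨s, false, j⟩ h' l) := by
    intro y
    funext l
    exact eval_onY0 _ _
  refine vdeg_eq (fun l => onX0 (M.P D ⟨s, true, j⟩ q h l))
    (fun l => onY0 (M.P _ q ⟨s, false, j⟩ h' l)) (fun y => ?_) (fun y => ?_) κ hκ ?_
  · rw [e1]; exact (M.P_spec h ![0, y]).choose
  · rw [e2]; exact (M.P_spec h' ![y, 0]).choose
  · intro y hy
    have h1 := (M.P_spec h ![0, y]).choose_spec
    have h2 := (M.P_spec h' ![κ * y, 0]).choose_spec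
    have h3 := (M.Ψ_iso _ _ (stable_chart c h _ _) (stable_chart c h' _ _)).2 (hiso y)
    have h4 := h1.symm.trans (h3.trans h2)
    simp only [e1, e2]
    exact h4

/-- A boundary curve which contains a sheaf which is locally free at `e` and one which is not has
positive degree. -/
theorem by_pos (M : PolyModuli c) (D : Fin 8 → ℤ) (r r' : REdge)
    (h : StableCorner D r r') : 0 < M.by' D r r' h := by
  have e2 : ∀ y, (fun l => (onY0 (M.P D r r' h l)).eval y) =
      fun l => MvPolynomial.eval ![y, 0] (M.P D r r' h l) := by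
    intro y
    funext l
    exact eval_onY0 _ _
  have hf : ∀ y, (fun l => (onY0 (M.P D r r' h l)).eval y) ≠ 0 := by
    intro y
    rw [e2]; exact (M.P_spec h ![y, 0]).choose
  refine vdeg_pos (fun l => onY0 (M.P D r r' h l)) hf ?_
  intro hcon
  simp only [e2] at hcon
  have h1 := (M.P_spec h ![0, 0]).choose_spec
  have h2 := (M.P_spec h ![1, 0]).choose_spec
  have h3 := h1.trans (hcon.trans h2.symm)
  have h4 := (M.Ψ_iso _ _ (stable_chart c h _ _) (stable_chart c h _ _)).1 h3
  refine NodalCurve.not_iso_degenerate (X := theta c) (chA r r' 0 0) (chB r r' 0 0)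
    (chA r r' 1 0) (chB r r' 1 0) r.edge rfl rfl ?_ ?_ h4
  · unfold chA chB
    rw [if_pos rfl, if_pos rfl]
    cases r.b <;> simp
  · unfold chA chB
    rw [if_pos rfl, if_pos rfl]
    cases r.b <;> simp

end PolyModuli

end CompJac
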