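import Mathlib
import Pool.Agent.Helper36.CJ.Regions

/-!
# The six multidegrees and the contradiction
-/

open AlgebraicGeometry CategoryTheory

namespace CompJac

/-- the multidegrees -/
def D1 : Fin 8 → ℤ := ![1, -1, 0, 0, 0, 0, 0, 0]
def D2 : Fin 8 → ℤ := ![0, -1, 0, 0, 0, 0, 1, 0]
def D3 : Fin 8 → ℤ := ![0, -2, 0, 0, 0, 1, 1, 0]
def D4 : Fin 8 → ℤ := ![0, -1, 1, 0, 0, 0, 0, 0]
def D5 : Fin 8 → ℤ := ![0, -2, 1, 0, 0, 1, 0, 0]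
def D6 : Fin 8 → ℤ := ![-1, -2, 1, 0, 0, 1, 1, 0]

/-- the rays of the fans -/
def R1 : Fin 5 → REdge :=
  ![⟨0, true, 0⟩, ⟨1, true, 0⟩, ⟨0, false, 2⟩, ⟨2, true, 0⟩, ⟨1, false, 2⟩]
def R2 : Fin 4 → REdge := ![⟨2, false, 0⟩, ⟨0, false, 2⟩, ⟨2, true, 1⟩, ⟨1, false, 2⟩]
def R3 : Fin 5 → REdge :=
  ![⟨0, true, 0⟩, ⟨2, false, 0⟩, ⟨1, true, 2⟩, ⟨2, true, 1⟩, ⟨1, false, 1⟩]
def R4 : Fin 4 → REdge := ![⟨2, false, 2⟩, ⟨1, true, 0⟩, ⟨0, false, 0⟩, ⟨1, false, 2⟩]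
def R5 : Fin 5 → REdge :=
  ![⟨0, true, 1⟩, ⟨2, false, 2⟩, ⟨1, true, 2⟩, ⟨0, false, 0⟩, ⟨2, true, 0⟩]
def R6 : Fin 4 → REdge := ![⟨0, true, 1⟩, ⟨2, false, 0⟩, ⟨0, false, 0⟩, ⟨1, false, 1⟩]

instance (r r' : Ray) : Decidable (Follows r r') := by unfold Follows; infer_instance

set_option maxRecDepth 1000000
lemma f1 : ∀ i, Follows (R1 i).ray (R1 (i + 1)).ray := by decide +kernel
lemma f2 : ∀ i, Follows (R2 i).ray (R2 (i + 1)).ray := by decide +kernel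
lemma f3 : ∀ i, Follows (R3 i).ray (R3 (i + 1)).ray := by decide +kernel
lemma f4 : ∀ i, Follows (R4 i).ray (R4 (i + 1)).ray := by decide +kernel
lemma f5 : ∀ i, Follows (R5 i).ray (R5 (i + 1)).ray := by decide +kernel
lemma f6 : ∀ i, Follows (R6 i).ray (R6 (i + 1)).ray := by decide +kernel
lemma s1 : ∀ i, StableCorner D1 (R1 i) (R1 (i + 1)) := by decide +kernel
lemma s2 : ∀ i, StableCorner D2 (R2 i) (R2 (i + 1)) := by decide +kernel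
lemma s3 : ∀ i, StableCorner D3 (R3 i) (R3 (i + 1)) := by decide +kernel
lemma s4 : ∀ i, StableCorner D4 (R4 i) (R4 (i + 1)) := by decide +kernel
lemma s5 : ∀ i, StableCorner D5 (R5 i) (R5 (i + 1)) := by decide +kernel
lemma s6 : ∀ i, StableCorner D6 (R6 i) (R6 (i + 1)) := by decide +kernel


lemma w1 : D4 = D1 - Pi.single (thS (REdge.edge ⟨0, true, 0⟩)) 1 +
    Pi.single (thT (REdge.edge ⟨0, true, 0⟩)) 1 := by decide +kernel
lemma w2 : D2 = D1 - Pi.single (thS (REdge.edge ⟨2, true, 0⟩)) 1 +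
    Pi.single (thT (REdge.edge ⟨2, true, 0⟩)) 1 := by decide +kernel
lemma w3 : D2 = D3 - Pi.single (thS (REdge.edge ⟨1, true, 2⟩)) 1 +
    Pi.single (thT (REdge.edge ⟨1, true, 2⟩)) 1 := by decide +kernel
lemma w4 : D6 = D3 - Pi.single (thS (REdge.edge ⟨0, true, 0⟩)) 1 +
    Pi.single (thT (REdge.edge ⟨0, true, 0⟩)) 1 := by decide +kernel
lemma w5 : D6 = D5 - Pi.single (thS (REdge.edge ⟨2, true, 0⟩)) 1 +
    Pi.single (thT (REdge.edge ⟨2, true, 0⟩)) 1 := by decide +kernel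
lemma w6 : D4 = D5 - Pi.single (thS (REdge.edge ⟨1, true, 2⟩)) 1 +
    Pi.single (thT (REdge.edge ⟨1, true, 2⟩)) 1 := by decide +kernel

variable {k : Type} [Field k] [IsAlgClosed k] {c : ℕ ↪ k}

/-- region 1: `β(a+) = β(a-) + β(c+)` -/
lemma rel1 (M : PolyModuli c) : M.bx D1 ⟨0, true, 0⟩ ⟨1, true, 0⟩ (s1 0) =
    M.by' D1 ⟨1, true, 0⟩ ⟨0, false, 2⟩ (s1 1) +
      M.bx D1 ⟨2, true, 0⟩ ⟨1, false, 2⟩ (s1 3) := by
  obtain ⟨w, hx, hy, h0⟩ := M.region (m := 5) D1 R1 f1 s1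
  have a1 : (M.bx D1 ⟨0, true, 0⟩ ⟨1, true, 0⟩ (s1 0) : ℤ) =
    w (0, true) - w (1, false) - w (2, false) := hx (0 : Fin 5)
  have a2 : (M.by' D1 ⟨1, true, 0⟩ ⟨0, false, 2⟩ (s1 1) : ℤ) =
    w (0, false) - w (1, true) - w (2, true) := hy (1 : Fin 5)
  have a3 : (M.bx D1 ⟨2, true, 0⟩ ⟨1, false, 2⟩ (s1 3) : ℤ) =
    w (2, true) - w (0, false) - w (1, false) := hx (3 : Fin 5)
  have a4 : 0 = w (2, false) - w (0, true) - w (1, true) := h0 2 false (by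
    have : ∀ i, (R1 i).ray ≠ (2, false) := by decide
    exact this)
  omega

/-- region 2: `β(c-) = β(c+) + β(b-)` -/
lemma rel2 (M : PolyModuli c) : M.by' D2 ⟨1, false, 2⟩ ⟨2, false, 0⟩ (s2 3) =
    M.bx D2 ⟨2, true, 1⟩ ⟨1, false, 2⟩ (s2 2) +
      M.by' D2 ⟨2, true, 1⟩ ⟨1, false, 2⟩ (s2 2) := by
  obtain ⟨w, hx, hy, h0⟩ := M.region (m := 4) D2 R2 f2 s2
  have a1 : (M.by' D2 ⟨1, false, 2⟩ ⟨2, false, 0⟩ (s2 3) : ℤ) =
    w (2, false) - w (0, true) - w (1, true) := hy (3 : Fin 4)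
  have a2 : (M.bx D2 ⟨2, true, 1⟩ ⟨1, false, 2⟩ (s2 2) : ℤ) =
    w (2, true) - w (0, false) - w (1, false) := hx (2 : Fin 4)
  have a3 : (M.by' D2 ⟨2, true, 1⟩ ⟨1, false, 2⟩ (s2 2) : ℤ) =
    w (1, false) - w (2, true) - w (0, true) := hy (2 : Fin 4)
  have a4 : 0 = w (0, true) - w (1, false) - w (2, false) := h0 0 true (by
    have : ∀ i, (R2 i).ray ≠ (0, true) := by decide
    exact this)
  have a5 : 0 = w (1, true) - w (2, false) - w (0, false) := h0 1 true (by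
    have : ∀ i, (R2 i).ray ≠ (1, true) := by decide
    exact this)
  omega

/-- region 3: `β(b+) = β(a+) + β(b-)` -/
lemma rel3 (M : PolyModuli c) : M.bx D3 ⟨1, true, 2⟩ ⟨2, true, 1⟩ (s3 2) =
    M.bx D3 ⟨0, true, 0⟩ ⟨2, false, 0⟩ (s3 0) +
      M.bx D3 ⟨1, false, 1⟩ ⟨0, true, 0⟩ (s3 4) := by
  obtain ⟨w, hx, hy, h0⟩ := M.region (m := 5) D3 R3 f3 s3
  have a1 : (M.bx D3 ⟨1, true, 2⟩ ⟨2, true, 1⟩ (s3 2) : ℤ) =
    w (1, true) - w (2, false) - w (0, false) := hx (2 : Fin 5)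
  have a2 : (M.bx D3 ⟨0, true, 0⟩ ⟨2, false, 0⟩ (s3 0) : ℤ) =
    w (0, true) - w (1, false) - w (2, false) := hx (0 : Fin 5)
  have a3 : (M.bx D3 ⟨1, false, 1⟩ ⟨0, true, 0⟩ (s3 4) : ℤ) =
    w (1, false) - w (2, true) - w (0, true) := hx (4 : Fin 5)
  have a4 : 0 = w (0, false) - w (1, true) - w (2, true) := h0 0 false (by
    have : ∀ i, (R3 i).ray ≠ (0, false) := by decide
    exact this)
  omega

/-- region 4: `β(b-) = β(b+) + β(a-)` -/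
lemma rel4 (M : PolyModuli c) : M.by' D4 ⟨0, false, 0⟩ ⟨1, false, 2⟩ (s4 2) =
    M.bx D4 ⟨1, true, 0⟩ ⟨0, false, 0⟩ (s4 1) +
      M.by' D4 ⟨1, true, 0⟩ ⟨0, false, 0⟩ (s4 1) := by
  obtain ⟨w, hx, hy, h0⟩ := M.region (m := 4) D4 R4 f4 s4
  have a1 : (M.by' D4 ⟨0, false, 0⟩ ⟨1, false, 2⟩ (s4 2) : ℤ) =
    w (1, false) - w (2, true) - w (0, true) := hy (2 : Fin 4)
  have a2 : (M.bx D4 ⟨1, true, 0⟩ ⟨0, false, 0⟩ (s4 1) : ℤ) =
    w (1, true) - w (2, false) - w (0, false) := hx (1 : Fin 4)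
  have a3 : (M.by' D4 ⟨1, true, 0⟩ ⟨0, false, 0⟩ (s4 1) : ℤ) =
    w (0, false) - w (1, true) - w (2, true) := hy (1 : Fin 4)
  have a4 : 0 = w (0, true) - w (1, false) - w (2, false) := h0 0 true (by
    have : ∀ i, (R4 i).ray ≠ (0, true) := by decide
    exact this)
  have a5 : 0 = w (2, true) - w (0, false) - w (1, false) := h0 2 true (by
    have : ∀ i, (R4 i).ray ≠ (2, true) := by decide
    exact this)
  omega

/-- region 5: `β(c+) = β(b+) + β(c-)` -/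
lemma rel5 (M : PolyModuli c) : M.bx D5 ⟨2, true, 0⟩ ⟨0, true, 1⟩ (s5 4) =
    M.bx D5 ⟨1, true, 2⟩ ⟨0, false, 0⟩ (s5 2) +
      M.bx D5 ⟨2, false, 2⟩ ⟨1, true, 2⟩ (s5 1) := by
  obtain ⟨w, hx, hy, h0⟩ := M.region (m := 5) D5 R5 f5 s5
  have a1 : (M.bx D5 ⟨2, true, 0⟩ ⟨0, true, 1⟩ (s5 4) : ℤ) =
    w (2, true) - w (0, false) - w (1, false) := hx (4 : Fin 5)
  have a2 : (M.bx D5 ⟨1, true, 2⟩ ⟨0, false, 0⟩ (s5 2) : ℤ) =
    w (1, true) - w (2, false) - w (0, false) := hx (2 : Fin 5)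
  have a3 : (M.bx D5 ⟨2, false, 2⟩ ⟨1, true, 2⟩ (s5 1) : ℤ) =
    w (2, false) - w (0, true) - w (1, true) := hx (1 : Fin 5)
  have a4 : 0 = w (1, false) - w (2, true) - w (0, true) := h0 1 false (by
    have : ∀ i, (R5 i).ray ≠ (1, false) := by decide
    exact this)
  omega

/-- region 6: `β(a-) = β(a+) + β(c-)` -/
lemma rel6 (M : PolyModuli c) : M.by' D6 ⟨2, false, 0⟩ ⟨0, false, 0⟩ (s6 1) =
    M.bx D6 ⟨0, true, 1⟩ ⟨2, false, 0⟩ (s6 0) +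
      M.by' D6 ⟨0, true, 1⟩ ⟨2, false, 0⟩ (s6 0) := by
  obtain ⟨w, hx, hy, h0⟩ := M.region (m := 4) D6 R6 f6 s6
  have a1 : (M.by' D6 ⟨2, false, 0⟩ ⟨0, false, 0⟩ (s6 1) : ℤ) =
    w (0, false) - w (1, true) - w (2, true) := hy (1 : Fin 4)
  have a2 : (M.bx D6 ⟨0, true, 1⟩ ⟨2, false, 0⟩ (s6 0) : ℤ) =
    w (0, true) - w (1, false) - w (2, false) := hx (0 : Fin 4)
  have a3 : (M.by' D6 ⟨0, true, 1⟩ ⟨2, false, 0⟩ (s6 0) : ℤ) =
    w (2, false) - w (0, true) - w (1, true) := hy (0 : Fin 4)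
  have a4 : 0 = w (1, true) - w (2, false) - w (0, false) := h0 1 true (by
    have : ∀ i, (R6 i).ray ≠ (1, true) := by decide
    exact this)
  have a5 : 0 = w (2, true) - w (0, false) - w (1, false) := h0 2 true (by
    have : ∀ i, (R6 i).ray ≠ (2, true) := by decide
    exact this)
  omega

/-- The moduli space has no polynomial coordinates. -/
theorem no_polyModuli (M : PolyModuli c) : False := by
  have r1 := rel1 M
  have r2 := rel2 M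
  have r3 := rel3 M
  have r4 := rel4 M
  have r5 := rel5 M
  have r6 := rel6 M
  have v1 := M.wall D1 D4 0 0 ⟨1, true, 0⟩ (by decide) w1 (s1 0) (s4 1)
  have v2 := M.wall D1 D2 2 0 ⟨1, false, 2⟩ (by decide) w2 (s1 3) (s2 3)
  have v3 := M.wall D3 D2 1 2 ⟨2, true, 1⟩ (by decide) w3 (s3 2) (s2 2)
  have v4 := M.wall D3 D6 0 0 ⟨2, false, 0⟩ (by decide) w4 (s3 0) (s6 1)
  have v5 := M.wall D5 D6 2 0 ⟨0, true, 1⟩ (by decide) w5 (s5 4) (s6 0)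
  have v6 := M.wall D5 D4 1 2 ⟨0, false, 0⟩ (by decide) w6 (s5 2) (s4 2)
  have p1 := M.by_pos D1 ⟨1, true, 0⟩ ⟨0, false, 2⟩ (s1 1)
  omega

/-- The fine `V`-compactified Jacobian is not projective. -/
theorem not_projective {J : Scheme.{0}} (π : J ⟶ Spec (.of k))
    (M : (theta c).ModuliSpace 0 nTheta π) : ¬ IsProjective π := by
  intro h
  obtain ⟨P⟩ := exists_polyModuli c π M h
  exact no_polyModuli P

end CompJac
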